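import Mathlib
import Pool.Agent.Lib.MP_d8b6c2_an.C.Main

/-! # Existence of the numbers -/

namespace Pool.Agent.MP_d8b6c2_an.C

theorem exists_nums_aux : ∃ N D M cap : ℕ → ℕ, Nums N D M cap := by
  let N : ℕ → ℕ := fun i => 400 * 2 ^ i
  let cap : ℕ → ℕ := fun i => 100 * 2 ^ (i + 1) * nn N (i + 1)
  let S : ℕ → ℕ := fun i => Nat.rec (motive := fun _ => ℕ) 0
    (fun i Si => Si + (N i * (Si + 1) - 1) * cap i) i
  have hS0 : S 0 = 0 := rfl
  have hS : ∀ i, S (i + 1) = S i + (N i * (S i + 1) - 1) * cap i := fun i => rfl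
  refine ⟨N, fun i => (N i * (S i + 1) - 1) * cap i, fun i => S i + 1, cap,
    fun _ => rfl, fun _ => rfl, ?_, fun _ => rfl⟩
  have h : ∀ i, ∑ l ∈ Finset.range i, (N l * (S l + 1) - 1) * cap l = S i := by
    intro i
    induction i with
    | zero => rw [Finset.sum_range_zero, hS0]
    | succ i ih => rw [Finset.sum_range_succ, ih, hS]
  intro i
  show ∑ l ∈ Finset.range i, (N l * (S l + 1) - 1) * cap l < S i + 1
  rw [h]
  exact Nat.lt_succ_self _

end Pool.Agent.MP_d8b6c2_an.C
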