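import Mathlib
import Pool.Agent.Lib.MP_d8b6c2_an.Specb

/-! # Matrix facts for the construction of the field -/

namespace Pool.Agent.MP_d8b6c2_an

open Finset
open scoped ComplexOrder

variable {n : Type*} [Fintype n] [DecidableEq n]

theorem nsq_eq_norm {m : Type*} [Fintype m] (v : m → ℂ) :
    nsq v = ‖(WithLp.toLp 2 v : EuclideanSpace ℂ m)‖ ^ 2 := by
  rw [EuclideanSpace.norm_sq_eq]
  rfl

theorem nsq_nonneg' {m : Type*} [Fintype m] (v : m → ℂ) : 0 ≤ nsq v :=
  Finset.sum_nonneg fun _ _ => sq_nonneg _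

theorem nsq_eq_dot {m : Type*} [Fintype m] (v : m → ℂ) : (nsq v : ℂ) = star v ⬝ᵥ v := by
  unfold nsq dotProduct
  push_cast
  refine Finset.sum_congr rfl fun i _ => ?_
  rw [Pi.star_apply, Complex.star_def, ← Complex.conj_mul']

/-- an isometry preserves `nsq` -/
theorem nsq_isometry {m : Type*} [Fintype m] [DecidableEq m] {E : Matrix n m ℂ}
    (hE : E.conjTranspose * E = 1) (v : m → ℂ) : nsq (E.mulVec v) = nsq v := by
  have h : (nsq (E.mulVec v) : ℂ) = nsq v := by
    rw [nsq_eq_dot, nsq_eq_dot, Matrix.star_mulVec, ← Matrix.dotProduct_mulVec,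
      Matrix.mulVec_mulVec, hE, Matrix.one_mulVec]
  exact_mod_cast h

/-- bound for a function of a Hermitian matrix -/
theorem nsq_cfc_le {B : Matrix n n ℂ} (hB : B.IsHermitian) (f : ℝ → ℝ) {c : ℝ}
    (hf : ∀ i, |f (hB.eigenvalues i)| ≤ c) (v : n → ℂ) :
    nsq ((cfc f B).mulVec v) ≤ c ^ 2 * nsq v := by
  have hU : ((hB.eigenvectorUnitary : Matrix n n ℂ)).conjTranspose *
      (hB.eigenvectorUnitary : Matrix n n ℂ) = 1 := by
    have := Unitary.coe_star_mul_self hB.eigenvectorUnitary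
    rwa [Matrix.star_eq_conjTranspose] at this
  have hU' : ((star hB.eigenvectorUnitary : Matrix.unitaryGroup n ℂ) : Matrix n n ℂ).conjTranspose *
      ((star hB.eigenvectorUnitary : Matrix.unitaryGroup n ℂ) : Matrix n n ℂ) = 1 := by
    have := Unitary.coe_star_mul_self (star hB.eigenvectorUnitary)
    rwa [Matrix.star_eq_conjTranspose] at this
  have e1 : cfc f B = (hB.eigenvectorUnitary : Matrix n n ℂ) *
      Matrix.diagonal (RCLike.ofReal ∘ f ∘ hB.eigenvalues) *
      ((star hB.eigenvectorUnitary : Matrix.unitaryGroup n ℂ) : Matrix n n ℂ) := by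
    rw [hB.cfc_eq, Matrix.IsHermitian.cfc, Unitary.conjStarAlgAut_apply, ← Unitary.coe_star]
  rw [e1, ← Matrix.mulVec_mulVec, ← Matrix.mulVec_mulVec, nsq_isometry hU]
  rw [← nsq_isometry hU' v]
  set z := ((star hB.eigenvectorUnitary : Matrix.unitaryGroup n ℂ) : Matrix n n ℂ).mulVec v
  unfold nsq
  rw [Finset.mul_sum]
  refine Finset.sum_le_sum fun i _ => ?_
  rw [Matrix.mulVec_diagonal, norm_mul, mul_pow]
  refine mul_le_mul_of_nonneg_right ?_ (sq_nonneg _)
  have h1 : ‖(RCLike.ofReal ∘ f ∘ hB.eigenvalues : n → ℂ) i‖ = |f (hB.eigenvalues i)| := by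
    simp
  rw [h1]
  exact pow_le_pow_left₀ (abs_nonneg _) (hf i) 2

theorem one_sub_sproj {c : ℝ} {B : Matrix n n ℂ} (hB : B.IsHermitian) :
    1 - sproj c B = cfc (fun y : ℝ => if c < y then (0 : ℝ) else 1) B := by
  have hB' : IsSelfAdjoint B := hB
  have h1 : (1 : Matrix n n ℂ) = cfc (fun _ : ℝ => (1 : ℝ)) B := by
    rw [cfc_const_one ℝ B hB']
  unfold sproj
  rw [h1, ← cfc_sub (fun _ : ℝ => (1 : ℝ)) (fun y : ℝ => if c < y then (1 : ℝ) else 0) B
    (Matrix.finite_real_spectrum.continuousOn _) (Matrix.finite_real_spectrum.continuousOn _)]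
  congr 1
  funext y
  split_ifs <;> norm_num

/-- (1) what is below the cut is small -/
theorem nsq_cut {c : ℝ} (hc : 0 ≤ c) {B : Matrix n n ℂ} (hB : B.PosSemidef) (w : n → ℂ) :
    nsq ((1 - sproj c B).mulVec (B.mulVec w)) ≤ c ^ 2 * nsq w := by
  have hB' : IsSelfAdjoint B := hB.1
  have h1 : (1 - sproj c B) * B = cfc (fun y : ℝ => (if c < y then (0 : ℝ) else 1) * y) B := by
    rw [one_sub_sproj hB.1]
    have h2 : B = cfc (fun y : ℝ => y) B := (cfc_id' ℝ B hB').symm
    conv_lhs => rw [h2]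
    conv_lhs =>
      enter [1]
      rw [← h2]
    rw [← cfc_mul (fun y : ℝ => if c < y then (0 : ℝ) else 1) (fun y : ℝ => y) B
      (Matrix.finite_real_spectrum.continuousOn _) (Matrix.finite_real_spectrum.continuousOn _)]
  rw [Matrix.mulVec_mulVec, h1]
  refine nsq_cfc_le hB.1 _ (fun i => ?_) w
  have h3 : 0 ≤ hB.1.eigenvalues i := hB.eigenvalues_nonneg i
  split_ifs with h4
  · simpa using hc
  · rw [one_mul, abs_of_nonneg h3]
    exact not_lt.1 h4

theorem nsq_one_sub_sproj_le (c : ℝ) {B : Matrix n n ℂ} (hB : B.IsHermitian) (w : n → ℂ) :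
    nsq ((1 - sproj c B).mulVec w) ≤ nsq w := by
  rw [one_sub_sproj hB]
  have := nsq_cfc_le hB (fun y : ℝ => if c < y then (0 : ℝ) else 1) (c := 1)
    (fun i => by split_ifs <;> norm_num) w
  linarith

/-- (2) a frame of eigenvectors with eigenvalues `≥ e` -/
theorem exists_frame {B : Matrix n n ℂ} (hB : B.IsHermitian) {e : ℝ} (he : 0 < e) {r0 : ℕ}
    (hr : r0 ≤ nGe e B) :
    ∃ E : Matrix n (Fin r0) ℂ, E.conjTranspose * E = 1 ∧
      ∀ ξ : Fin r0 → ℂ, ∃ w : n → ℂ, B.mulVec w = E.mulVec ξ ∧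
        e ^ 2 * nsq w ≤ nsq (E.mulVec ξ) := by
  classical
  rw [specb_nGe e hB] at hr
  obtain ⟨S, hS, hSc⟩ := Finset.exists_subset_card_eq hr
  let g : Fin r0 ↪ n := (S.equivFinOfCardEq hSc).symm.toEmbedding.trans (Function.Embedding.subtype _)
  have hg : ∀ l, e ≤ hB.eigenvalues (g l) := by
    intro l
    have h1 : g l ∈ S := ((S.equivFinOfCardEq hSc).symm l).2
    have h2 := hS h1
    simpa using h2
  set U : Matrix n n ℂ := (hB.eigenvectorUnitary : Matrix n n ℂ) with hU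
  have hUU : U.conjTranspose * U = 1 := by
    have := Unitary.coe_star_mul_self hB.eigenvectorUnitary
    rwa [Matrix.star_eq_conjTranspose] at this
  have hBU : B * U = U * Matrix.diagonal (fun i => (hB.eigenvalues i : ℂ)) := by
    have h1 := hB.spectral_theorem
    rw [Unitary.conjStarAlgAut_apply, ← Unitary.coe_star] at h1
    have h2 : ((star hB.eigenvectorUnitary : Matrix.unitaryGroup n ℂ) : Matrix n n ℂ) * U = 1 := by
      rw [hU, Unitary.coe_star]
      exact Unitary.coe_star_mul_self hB.eigenvectorUnitary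
    conv_lhs => rw [h1]
    rw [Matrix.mul_assoc, h2, Matrix.mul_one]
    rfl
  let E : Matrix n (Fin r0) ℂ := U.submatrix id g
  have hE : E.conjTranspose * E = 1 := by
    ext a b
    have h1 : (E.conjTranspose * E) a b = (U.conjTranspose * U) (g a) (g b) := by
      simp [E, Matrix.mul_apply]
    rw [h1, hUU, Matrix.one_apply, Matrix.one_apply]
    simp only [EmbeddingLike.apply_eq_iff_eq]
  have hBE : B * E = E * Matrix.diagonal (fun l => (hB.eigenvalues (g l) : ℂ)) := by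
    ext a b
    have h1 : (B * E) a b = (B * U) a (g b) := by
      simp [E, Matrix.mul_apply]
    rw [h1, hBU, Matrix.mul_diagonal, Matrix.mul_diagonal]
    rfl
  refine ⟨E, hE, fun ξ => ?_⟩
  refine ⟨E.mulVec fun l => ξ l / (hB.eigenvalues (g l) : ℂ), ?_, ?_⟩
  · rw [Matrix.mulVec_mulVec, hBE, ← Matrix.mulVec_mulVec]
    congr 1
    funext l
    rw [Matrix.mulVec_diagonal]
    have : (hB.eigenvalues (g l) : ℂ) ≠ 0 := by
      have := hg l
      exact_mod_cast (by linarith : (0 : ℝ) < hB.eigenvalues (g l)).ne'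
    field_simp
  · rw [nsq_isometry hE, nsq_isometry hE]
    unfold nsq
    rw [Finset.mul_sum]
    refine Finset.sum_le_sum fun l _ => ?_
    have h1 := hg l
    have h2 : 0 < hB.eigenvalues (g l) := by linarith
    rw [norm_div, div_pow, Complex.norm_real, Real.norm_of_nonneg h2.le]
    rw [← mul_div_assoc, div_le_iff₀ (by positivity)]
    have h3 : e ^ 2 ≤ hB.eigenvalues (g l) ^ 2 := pow_le_pow_left₀ he.le h1 2
    nlinarith [sq_nonneg ‖ξ l‖]

open scoped Matrix.Norms.L2Operator in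
theorem nsq_mulVec_le (A : Matrix n n ℂ) {c : ℝ} (h : ‖A‖ ≤ c) (w : n → ℂ) :
    nsq (A.mulVec w) ≤ c ^ 2 * nsq w := by
  have h1 := Matrix.l2_opNorm_mulVec A (WithLp.toLp 2 w)
  have h2 : ‖(WithLp.toLp 2 (A.mulVec w) : EuclideanSpace ℂ n)‖ ≤
      ‖A‖ * ‖(WithLp.toLp 2 w : EuclideanSpace ℂ n)‖ := h1
  rw [nsq_eq_norm, nsq_eq_norm, ← mul_pow]
  exact pow_le_pow_left₀ (norm_nonneg _)
    (h2.trans (mul_le_mul_of_nonneg_right h (norm_nonneg _))) 2

open scoped Matrix.Norms.L2Operator in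
/-- (3) the certificate -/
theorem cert_of {B B0 : Matrix n n ℂ} (hB : B.PosSemidef) {e e2 : ℝ} (he : 0 < e)
    (he2 : 0 < e2) (h2 : e2 ≤ e / 16) (hc : ‖B - B0‖ ≤ e / 16) {w u : n → ℂ}
    (hw : B0.mulVec w = u) (hwu : e ^ 2 * nsq w ≤ nsq u) :
    16 * nsq ((1 - sproj (e2 / 2) B).mulVec u) ≤ nsq u := by
  have h1 := nsq_cut (c := e2 / 2) (by positivity) hB w
  have h3 := nsq_one_sub_sproj_le (e2 / 2) hB.1 ((B - B0).mulVec w)
  have h4 := nsq_mulVec_le (B - B0) hc w
  have e1 : (1 - sproj (e2 / 2) B).mulVec u =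
      (1 - sproj (e2 / 2) B).mulVec (B.mulVec w) -
        (1 - sproj (e2 / 2) B).mulVec ((B - B0).mulVec w) := by
    rw [← hw, Matrix.sub_mulVec B B0 w, Matrix.mulVec_sub]
    abel
  set a := (1 - sproj (e2 / 2) B).mulVec (B.mulVec w)
  set b := (1 - sproj (e2 / 2) B).mulVec ((B - B0).mulVec w)
  have h5 : nsq (a - b) ≤ 2 * nsq a + 2 * nsq b := by
    unfold nsq
    rw [Finset.mul_sum, Finset.mul_sum, ← Finset.sum_add_distrib]
    refine Finset.sum_le_sum fun i _ => ?_
    rw [Pi.sub_apply]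
    have h6 := norm_sub_le (a i) (b i)
    nlinarith [sq_nonneg (‖a i‖ - ‖b i‖), norm_nonneg (a i - b i), norm_nonneg (a i),
      norm_nonneg (b i)]
  rw [e1]
  have h7 : (e2 / 2) ^ 2 ≤ (e / 32) ^ 2 := pow_le_pow_left₀ (by positivity) (by linarith) 2
  have h8 : 0 ≤ nsq w := nsq_nonneg' w
  have h9 : nsq a ≤ (e / 32) ^ 2 * nsq w := h1.trans (mul_le_mul_of_nonneg_right h7 h8)
  have h10 : nsq b ≤ (e / 16) ^ 2 * nsq w := h3.trans h4
  have h11 : 0 ≤ nsq u := nsq_nonneg' u
  nlinarith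

/-- (4) counting eigenvalues in a window -/
theorem nIcc_add_nGe {c1 c2 c3 : ℝ} (h : c2 < c3) (h' : c1 ≤ c3) {B : Matrix n n ℂ}
    (hB : B.IsHermitian) : nIcc c1 c2 B + nGe c3 B ≤ nGe c1 B := by
  rw [specb_nIcc c1 c2 hB, specb_nGe c3 hB, specb_nGe c1 hB, ← Finset.card_union_of_disjoint]
  · refine Finset.card_le_card fun i hi => ?_
    simp only [Finset.mem_filter, Finset.mem_univ, true_and, Finset.mem_union] at hi ⊢
    rcases hi with hi | hi
    · exact hi.1
    · linarith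
  · rw [Finset.disjoint_left]
    intro i hi hi'
    simp only [Finset.mem_filter, Finset.mem_univ, true_and] at hi hi'
    linarith [hi.2]

theorem nGe_anti {c c' : ℝ} (h : c ≤ c') {B : Matrix n n ℂ} (hB : B.IsHermitian) :
    nGe c' B ≤ nGe c B := by
  rw [specb_nGe c hB, specb_nGe c' hB]
  refine Finset.card_le_card fun i hi => ?_
  simp only [Finset.mem_filter, Finset.mem_univ, true_and] at hi ⊢
  linarith

end Pool.Agent.MP_d8b6c2_an
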