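import Mathlib
import Pool.Agent.Lib.MP_d8b6c2_an.C.Sys1
import Pool.Agent.Lib.MP_d8b6c2_an.C.Lim2

/-!
# From equivariant functions on `XX` to fields: definitions

The stages `i, ..., i + n - 1` correspond to the depths `n - 1, ..., 0` (`seqF`). `Gm` maps the base
of a field to `XX`: nodes of depth `< n` carry the spheres, the leaf `p` carries the constant tree
`gam (1 - x p)`.
-/

namespace Pool.Agent.MP_d8b6c2_an.F

open Finset
open Pool.Agent.MP_d8b6c2_an.C

/-- the sequence `f (i + n - 1), ..., f i` -/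
def seqF (f : ℕ → ℕ) (i : ℕ) : (n : ℕ) → Fin n → ℕ
  | 0 => Fin.elim0
  | n + 1 => Fin.cons (f (i + n)) (seqF f i n)

/-- number of genuine children minus one -/
abbrev mS (N : ℕ → ℕ) (i n : ℕ) : Fin n → ℕ := seqF (fun l => N l - 1) i n

variable {N D : ℕ → ℕ} {i : ℕ}

/-- put a letter in front of a word -/
def consP {n : ℕ} (k : Fin (N (i + n) - 1 + 1)) (p : Pth (mS N i n)) : Pth (mS N i (n + 1)) :=
  Fin.cons (α := fun t => Fin (mS N i (n + 1) t + 1)) k p

/-- the first letter -/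
def headP {n : ℕ} (p : Pth (mS N i (n + 1))) : Fin (N (i + n) - 1 + 1) := p 0

/-- the word without its first letter -/
def tailP {n : ℕ} (p : Pth (mS N i (n + 1))) : Pth (mS N i n) := fun t => p t.succ

theorem consP_pre {n : ℕ} (k : Fin (N (i + n) - 1 + 1)) (q : Pth (mS N i n)) (t : Fin n)
    (h : pre (t : ℕ) q = q) : pre ((t.succ : Fin (n + 1)) : ℕ) (consP k q) = consP k q := by
  funext s
  refine Fin.cases ?_ (fun s => ?_) s
  · have h1 : ((0 : Fin (n + 1)) : ℕ) < ((t.succ : Fin (n + 1)) : ℕ) := by simp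
    change (if ((0 : Fin (n + 1)) : ℕ) < ((t.succ : Fin (n + 1)) : ℕ) then _ else _) = _
    rw [if_pos h1]
  · have h2 := congrFun h s
    change (if ((s : ℕ)) < (t : ℕ) then q s else 0) = q s at h2
    change (if ((s.succ : Fin (n + 1)) : ℕ) < ((t.succ : Fin (n + 1)) : ℕ) then q s else 0) = q s
    rw [Fin.val_succ, Fin.val_succ]
    by_cases h3 : (s : ℕ) < (t : ℕ)
    · rw [if_pos (by omega)]
    · rw [if_neg h3] at h2
      rw [if_neg (by omega), h2]

theorem zero_pre {n : ℕ} : pre (((0 : Fin (n + 1)) : ℕ)) (fun _ => 0 : Pth (mS N i (n + 1))) =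
    fun _ => 0 := by
  funext s
  change (if ((s : ℕ)) < ((0 : Fin (n + 1)) : ℕ) then _ else _) = _
  rw [ite_self]

/-- a sphere at the root -/
def rootS {n : ℕ} (s : Fin (D (i + n))) : Sg (mS N i (n + 1)) (seqF D i (n + 1)) :=
  ⟨⟨((0 : Fin (n + 1)), fun _ => 0), zero_pre⟩, s⟩

/-- a sphere of the subtree at the child `k` -/
def childS {n : ℕ} (k : Fin (N (i + n) - 1 + 1)) (u : Sg (mS N i n) (seqF D i n)) :
    Sg (mS N i (n + 1)) (seqF D i (n + 1)) :=
  ⟨⟨(u.1.1.1.succ, consP k u.1.1.2), consP_pre k u.1.1.2 u.1.1.1 u.1.2⟩, u.2⟩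

/-- restriction of a point of the base to the subtree at the child `k` -/
def childB {n : ℕ} (k : Fin (N (i + n) - 1 + 1)) (x : Bs (mS N i (n + 1)) (seqF D i (n + 1))) :
    Bs (mS N i n) (seqF D i n) :=
  (fun p => x.1 (consP k p), fun u => x.2 (childS k u))

/-- base point of the sphere -/
def s0 : S3 := ⟨![1, 0], by simp⟩

/-- the constant tree -/
def gam (t : unitInterval) : C.XX := fun _ => (t, fun _ => s0)

/-- the map from the base of a field to `XX` -/
noncomputable def Gm (N D : ℕ → ℕ) (i : ℕ) :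
    (n : ℕ) → Bs (mS N i n) (seqF D i n) → C.XX
  | 0, x => gam (unitInterval.symm (x.1 fun t => t.elim0))
  | n + 1, x => fun v => match v with
    | [] => (0, fun s => if h : s < D (i + n) then x.2 (rootS ⟨s, h⟩) else s0)
    | a :: w => if h : a < N (i + n) - 1 + 1 then Gm N D i n (childB ⟨a, h⟩ x) w
        else (0, fun _ => s0)

/-- letters of a matrix index, from the top -/
def ltr (N : ℕ → ℕ) (i : ℕ) : (n : ℕ) → Ix N (i + n) → Fin n → ℕ
  | 0, _ => Fin.elim0
  | n + 1, q => Fin.cons ((Ix.hd (i := i + n) q : Fin (N (i + n) + 1)) : ℕ)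
      (ltr N i n (Ix.tl (i := i + n) q))

/-- weight of the sphere `u` at the matrix index `q` -/
def wtI (N D : ℕ → ℕ) (i n : ℕ) (u : Sg (mS N i n) (seqF D i n)) (q : Ix N (i + n)) : ℕ :=
  if ∀ a : Fin n, a < u.1.1.1 → ltr N i n q a = (u.1.1.2 a : ℕ) then
    if ltr N i n q u.1.1.1 ≤ mS N i n u.1.1.1 then ltr N i n q u.1.1.1 else 0
  else 0

/-- the matrix index `p r` (word `p` of genuine letters, then `r`) -/
def emb (N : ℕ → ℕ) (i : ℕ) : (n : ℕ) → Pth (mS N i n) → Ix N i → Ix N (i + n)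
  | 0, _, r => r
  | n + 1, p, r => Ix.cons (i := i + n) ⟨(headP p : ℕ), by have := (headP p).2; exact lt_of_lt_of_le this (by omega)⟩
      (emb N i n (tailP p) r)

/-- number of leaves -/
def RR (N : ℕ → ℕ) (i : ℕ) : ℕ → ℕ
  | 0 => 1
  | n + 1 => N (i + n) * RR N i n

end Pool.Agent.MP_d8b6c2_an.F
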