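import Mathlib
import Pool.Agent.Lib.MP_d8b6c2_an.Spec
import Pool.Agent.Lib.MP_d8b6c2_an.Bridge1b

/-! # Eigenvectors and spectral projections of Hermitian matrices -/

namespace Pool.Agent.MP_d8b6c2_an.F

open Finset
open scoped Matrix.Norms.L2Operator

variable {n : Type*} [Fintype n] [DecidableEq n] {l : Type*} [Fintype l] [DecidableEq l]

private theorem eig1_nGe {B : Matrix n n ℂ} (hB : B.IsHermitian) (a : ℝ) :
    nGe a B = Fintype.card {i : n // a ≤ hB.eigenvalues i} := by
  classical
  unfold nGe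
  rw [hB.roots_charpoly_eq_eigenvalues, Fintype.card_subtype]
  rw [Multiset.filter_map, Multiset.card_map]
  rfl

/-- orthonormal eigenvectors for eigenvalues `≥ c` -/
theorem exists_eigframe {B : Matrix n n ℂ} (hB : B.IsHermitian) (c : ℝ) (r0 : ℕ)
    (h : r0 ≤ nGe c B) :
    ∃ (E : Matrix n (Fin r0) ℂ) (lam : Fin r0 → ℝ), E.conjTranspose * E = 1 ∧
      (∀ j, c ≤ lam j) ∧ B * E = E * Matrix.diagonal (fun j => (lam j : ℂ)) := by
  classical
  rw [eig1_nGe hB] at h
  have h' : Fintype.card (Fin r0) ≤ Fintype.card {i : n // c ≤ hB.eigenvalues i} := by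
    rw [Fintype.card_fin]; exact h
  obtain ⟨e⟩ := Function.Embedding.nonempty_of_card_le h'
  refine ⟨fun x j => (hB.eigenvectorBasis (e j)).ofLp x, fun j => hB.eigenvalues (e j), ?_,
    fun j => (e j).2, ?_⟩
  · ext j k
    have h1 := orthonormal_iff_ite.1 hB.eigenvectorBasis.orthonormal (e j : n) (e k : n)
    rw [EuclideanSpace.inner_eq_star_dotProduct, dotProduct_comm] at h1
    have h2 : ((e j : n) = (e k : n)) ↔ j = k :=
      ⟨fun h3 => e.injective (Subtype.ext h3), fun h3 => by rw [h3]⟩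
    rw [Matrix.mul_apply, Matrix.one_apply]
    simp only [h2] at h1
    rw [← h1]
    rfl
  · ext x j
    have h1 := congrFun (hB.mulVec_eigenvectorBasis (e j : n)) x
    rw [Matrix.mul_diagonal, Matrix.mul_apply]
    change ∑ y, B x y * (hB.eigenvectorBasis (e j)).ofLp y = _ at h1
    rw [h1, mul_comm]
    simp

/-- a spectral projection fixes eigenvectors -/
theorem sproj_eig {C : Matrix n n ℂ} (hC : C.IsHermitian) {F : Matrix n l ℂ} {lam : l → ℝ}
    (h : C * F = F * Matrix.diagonal (fun j => (lam j : ℂ))) {c : ℝ} (hl : ∀ j, c < lam j) :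
    sproj c C * F = F := by
  classical
  obtain ⟨U, V, hUV, hVU, hCU, hs⟩ : ∃ U V : Matrix n n ℂ, U * V = 1 ∧ V * U = 1 ∧
      C = U * Matrix.diagonal (fun i => (hC.eigenvalues i : ℂ)) * V ∧
      sproj c C = U * Matrix.diagonal (fun i => if c < hC.eigenvalues i then (1 : ℂ) else 0) * V := by
    refine ⟨(hC.eigenvectorUnitary : Matrix n n ℂ), star (hC.eigenvectorUnitary : Matrix n n ℂ),
      Unitary.coe_mul_star_self hC.eigenvectorUnitary,
      Unitary.coe_star_mul_self hC.eigenvectorUnitary, ?_, ?_⟩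
    · have h1 := hC.spectral_theorem
      rw [Unitary.conjStarAlgAut_apply] at h1
      exact h1
    · unfold sproj
      rw [hC.cfc_eq, Matrix.IsHermitian.cfc, Unitary.conjStarAlgAut_apply]
      congr 2
      congr 1
      funext i
      by_cases hi : c < hC.eigenvalues i <;> simp [hi]
  obtain ⟨G, hG⟩ : ∃ G : Matrix n l ℂ, G = V * F := ⟨_, rfl⟩
  have h2 : Matrix.diagonal (fun i => (hC.eigenvalues i : ℂ)) * G =
      G * Matrix.diagonal (fun j => (lam j : ℂ)) := by
    have h3 : V * (C * F) = V * (F * Matrix.diagonal (fun j => (lam j : ℂ))) := by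
      rw [h]
    rw [← Matrix.mul_assoc V F] at h3
    rw [hG, ← h3]
    conv_rhs => rw [hCU]
    rw [Matrix.mul_assoc U, Matrix.mul_assoc U, ← Matrix.mul_assoc V U, hVU,
      Matrix.one_mul, Matrix.mul_assoc]
  have h4 : Matrix.diagonal (fun i => if c < hC.eigenvalues i then (1 : ℂ) else 0) * G = G := by
    ext i j
    have h5 := congrFun (congrFun h2 i) j
    rw [Matrix.diagonal_mul, Matrix.mul_diagonal] at h5
    rw [Matrix.diagonal_mul]
    by_cases h6 : c < hC.eigenvalues i
    · simp [h6]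
    · have h7 : (hC.eigenvalues i : ℂ) ≠ (lam j : ℂ) := by
        intro h8
        have h9 : hC.eigenvalues i = lam j := by exact_mod_cast h8
        exact h6 (h9 ▸ hl j)
      have h10 : ((hC.eigenvalues i : ℂ) - (lam j : ℂ)) * G i j = 0 := by
        rw [sub_mul, h5]; ring
      have h12 : G i j = 0 := by
        rcases mul_eq_zero.1 h10 with h13 | h13
        · exact absurd (sub_eq_zero.1 h13) h7
        · exact h13
      rw [h12, mul_zero]
  have h5 : sproj c C * F =
      U * (Matrix.diagonal (fun i => if c < hC.eigenvalues i then (1 : ℂ) else 0) * G) := by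
    rw [hs, hG, Matrix.mul_assoc, Matrix.mul_assoc]
  rw [h5, h4, hG, ← Matrix.mul_assoc, hUV, Matrix.one_mul]

end Pool.Agent.MP_d8b6c2_an.F
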