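import Mathlib
import Pool.Agent.Lib.MP_d8b6c2_an.Spec
import Pool.Agent.Lib.MP_d8b6c2_an.Bridge1b
import Pool.Agent.Lib.MP_d8b6c2_an.F.Eig1

/-! # Eigenvectors and spectral projections of Hermitian matrices -/

namespace Pool.Agent.MP_d8b6c2_an.F

open Finset
open scoped Matrix.Norms.L2Operator

variable {n : Type*} [Fintype n] [DecidableEq n] {l : Type*} [Fintype l] [DecidableEq l]

theorem nIcc_add_nGe_le {B : Matrix n n ℂ} {a b c : ℝ} (h : b < c) (h' : a ≤ c) :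
    nIcc a b B + nGe c B ≤ nGe a B := by
  classical
  unfold nIcc nGe
  rw [← Multiset.card_add, Multiset.filter_add_filter, Multiset.card_add]
  have h1 : Multiset.filter (fun z : ℂ => (a ≤ z.re ∧ z.re ≤ b) ∧ c ≤ z.re) B.charpoly.roots = 0 := by
    rw [Multiset.filter_eq_nil]
    rintro z - ⟨⟨_, h2⟩, h3⟩
    linarith
  rw [h1, Multiset.card_zero, add_zero]
  refine Multiset.card_le_card (Multiset.monotone_filter_right _ ?_)
  rintro z (⟨h2, _⟩ | h2)
  · exact h2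
  · exact h'.trans h2

private theorem eig_nsq_norm {n : Type*} [Fintype n] (v : n → ℂ) :
    nsq v = ‖(WithLp.toLp 2 v : EuclideanSpace ℂ n)‖ ^ 2 := by
  rw [EuclideanSpace.norm_sq_eq]
  rfl

/-- from the operator norm to `nsq` -/
theorem nsq_le_of_norm {B : Matrix n n ℂ} {ε : ℝ} (h : ‖B‖ ≤ ε) (v : n → ℂ) :
    nsq (B.mulVec v) ≤ ε ^ 2 * nsq v := by
  rw [eig_nsq_norm, eig_nsq_norm, ← mul_pow]
  have h1 := Matrix.l2_opNorm_mulVec B (WithLp.toLp 2 v : EuclideanSpace ℂ n)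
  refine pow_le_pow_left₀ (norm_nonneg _) ?_ 2
  refine le_trans h1 ?_
  exact mul_le_mul_of_nonneg_right h (norm_nonneg _)

/-- Certificate. `w = F ξ` with eigenvectors `F` of `C` for eigenvalues `≥ e`, and
`‖B - C‖ ≤ e / 16`, `d ≤ e / 32`. Use `sproj_eig` with `c = e / 2` and `davis_kahan`. -/
theorem cert_of_close {B C : Matrix n n ℂ} (hB : B.IsHermitian) (hC : C.IsHermitian) {e d : ℝ}
    (he : 0 < e) (hd : d ≤ e / 32) (hBC : ‖B - C‖ ≤ e / 16) {F : Matrix n l ℂ} {lam : l → ℝ}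
    (h : C * F = F * Matrix.diagonal (fun j => (lam j : ℂ))) (hl : ∀ j, e ≤ lam j)
    (ξ : l → ℂ) :
    16 * nsq ((1 - sproj d B).mulVec (F.mulVec ξ)) ≤ nsq (F.mulVec ξ) := by
  have h1 : sproj (e / 2) C * F = F := sproj_eig hC h (c := e / 2) (fun j => by
    have := hl j
    linarith)
  have h2 : (sproj (e / 2) C).mulVec (F.mulVec ξ) = F.mulVec ξ := by
    rw [Matrix.mulVec_mulVec, h1]
  have h3 := davis_kahan hB hC (ε := e / 16) (by positivity) (nsq_le_of_norm hBC)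
    (a := d) (b := e / 2) (by linarith) (F.mulVec ξ)
  rw [h2] at h3
  have h4 : 0 ≤ nsq (F.mulVec ξ) := bridge1b_nsq_nonneg _
  have h5 : (e / 16 / (e / 2 - d)) ≤ 2 / 15 := by
    rw [div_le_iff₀ (by linarith)]
    linarith
  have h6 : 0 ≤ e / 16 / (e / 2 - d) := by
    refine div_nonneg (by positivity) (by linarith)
  have h7 : (e / 16 / (e / 2 - d)) ^ 2 ≤ (2 / 15) ^ 2 := pow_le_pow_left₀ h6 h5 2
  nlinarith [mul_le_mul_of_nonneg_right h7 h4]

end Pool.Agent.MP_d8b6c2_an.F
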