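import Mathlib
import Pool.Agent.Lib.MP_d8b6c2_an.F.Defs

/-! # Words and spheres -/

namespace Pool.Agent.MP_d8b6c2_an.F

open Finset
open Pool.Agent.MP_d8b6c2_an.C

variable {N D : ℕ → ℕ} {i n : ℕ}

theorem consP_head_tail (p : Pth (mS N i (n + 1))) : consP (headP p) (tailP p) = p := by
  funext t
  refine Fin.cases rfl (fun t => rfl) t

theorem headP_consP (k : Fin (N (i + n) - 1 + 1)) (p : Pth (mS N i n)) :
    headP (consP k p) = k := rfl

theorem tailP_consP (k : Fin (N (i + n) - 1 + 1)) (p : Pth (mS N i n)) :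
    tailP (consP k p) = p := rfl

theorem consP_inj {k k' : Fin (N (i + n) - 1 + 1)} {p p' : Pth (mS N i n)}
    (h : consP k p = consP k' p') : k = k' ∧ p = p' :=
  ⟨congrArg headP h, congrArg tailP h⟩

/-- words as pairs -/
def consPEquiv : (Fin (N (i + n) - 1 + 1) × Pth (mS N i n)) ≃ Pth (mS N i (n + 1)) where
  toFun x := consP x.1 x.2
  invFun p := (headP p, tailP p)
  left_inv _ := rfl
  right_inv p := consP_head_tail p

theorem sum_Pth_succ {M : Type*} [AddCommMonoid M] (f : Pth (mS N i (n + 1)) → M) :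
    ∑ p, f p = ∑ k, ∑ p', f (consP k p') := by
  rw [← Equiv.sum_comp consPEquiv f, Fintype.sum_prod_type]
  rfl

theorem card_Pth (hN : ∀ l, 0 < N l) : Fintype.card (Pth (mS N i n)) = RR N i n := by
  induction n with
  | zero =>
    rw [Fintype.card_eq_one_iff_nonempty_unique.mpr]
    · rfl
    · exact ⟨⟨⟨fun t => t.elim0⟩, fun p => funext fun t => t.elim0⟩⟩
  | succ n ih =>
    rw [← Fintype.card_congr (consPEquiv (N := N) (i := i) (n := n)), Fintype.card_prod, ih,
      Fintype.card_fin]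
    have h1 : N (i + n) - 1 + 1 = N (i + n) := Nat.succ_pred_eq_of_pos (hN (i + n))
    rw [h1]
    rfl

theorem sg_cases (u : Sg (mS N i (n + 1)) (seqF D i (n + 1))) :
    (∃ s, u = rootS s) ∨ ∃ k u', u = childS k u' := by
  rcases u with ⟨⟨⟨t, q⟩, h⟩, s⟩
  induction t using Fin.cases with
  | zero =>
    left
    have hq : q = fun _ => 0 := by
      refine h.symm.trans ?_
      funext a
      change (if ((a : ℕ)) < ((0 : Fin (n + 1)) : ℕ) then q a else 0) = 0
      rw [if_neg (by simp)]
    subst hq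
    exact ⟨s, rfl⟩
  | succ t =>
    right
    obtain ⟨k, q', rfl⟩ : ∃ k q', q = consP k q' := ⟨headP q, tailP q, (consP_head_tail q).symm⟩
    have hq' : pre (t : ℕ) q' = q' := by
      funext a
      have h2 := congrFun h a.succ
      change (if ((a.succ : Fin (n + 1)) : ℕ) < ((t.succ : Fin (n + 1)) : ℕ) then q' a else 0) =
        q' a at h2
      change (if ((a : ℕ)) < (t : ℕ) then q' a else 0) = q' a
      rw [Fin.val_succ, Fin.val_succ] at h2
      by_cases h3 : (a : ℕ) < (t : ℕ)
      · rw [if_pos h3]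
      · rw [if_neg (by omega)] at h2
        rw [if_neg h3, h2]
    exact ⟨k, ⟨⟨(t, q'), hq'⟩, s⟩, rfl⟩

theorem rootS_inj {s s' : Fin (D (i + n))}
    (h : (rootS s : Sg (mS N i (n + 1)) (seqF D i (n + 1))) = rootS s') : s = s' :=
  eq_of_heq (Sigma.mk.inj h).2

theorem childS_inj {k k' : Fin (N (i + n) - 1 + 1)} {u u' : Sg (mS N i n) (seqF D i n)}
    (h : childS k u = childS k' u') : k = k' ∧ u = u' := by
  rcases u with ⟨⟨⟨t, q⟩, hq⟩, s⟩
  rcases u' with ⟨⟨⟨t', q'⟩, hq'⟩, s'⟩
  obtain ⟨h1, h3⟩ := Sigma.mk.inj h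
  obtain ⟨h1, h2⟩ := Prod.mk.inj (Subtype.mk.inj h1)
  have h4 : t = t' := Fin.succ_injective _ h1
  subst h4
  obtain ⟨rfl, rfl⟩ := consP_inj h2
  have h5 : s = s' := eq_of_heq h3
  subst h5
  exact ⟨rfl, rfl⟩

theorem rootS_ne_childS (s : Fin (D (i + n))) (k : Fin (N (i + n) - 1 + 1))
    (u : Sg (mS N i n) (seqF D i n)) : rootS s ≠ childS k u := by
  intro h
  obtain ⟨h1, _⟩ := Sigma.mk.inj h
  obtain ⟨h1, _⟩ := Prod.mk.inj (Subtype.mk.inj h1)
  exact (Fin.succ_ne_zero _ h1.symm)

theorem childB_rotB_root (s : Fin (D (i + n))) (c : Circle) (k : Fin (N (i + n) - 1 + 1))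
    (x : Bs (mS N i (n + 1)) (seqF D i (n + 1))) :
    childB k (rotB (rootS s) c x) = childB k x := by
  refine Prod.ext rfl ?_
  funext u
  change Function.update x.2 (rootS s) (rotS c (x.2 (rootS s))) (childS k u) = x.2 (childS k u)
  exact Function.update_of_ne (rootS_ne_childS s k u).symm _ _

theorem childB_rotB_self (k : Fin (N (i + n) - 1 + 1)) (u : Sg (mS N i n) (seqF D i n))
    (c : Circle) (x : Bs (mS N i (n + 1)) (seqF D i (n + 1))) :
    childB k (rotB (childS k u) c x) = rotB u c (childB k x) := by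
  refine Prod.ext rfl ?_
  funext u'
  change Function.update x.2 (childS k u) (rotS c (x.2 (childS k u))) (childS k u') =
    Function.update (fun v => x.2 (childS k v)) u (rotS c (x.2 (childS k u))) u'
  by_cases h : u' = u
  · subst h
    rw [Function.update_self, Function.update_self]
  · rw [Function.update_of_ne h, Function.update_of_ne (fun h' => h (childS_inj h').2)]

theorem childB_rotB_ne {k k' : Fin (N (i + n) - 1 + 1)} (h : k ≠ k')
    (u : Sg (mS N i n) (seqF D i n)) (c : Circle)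
    (x : Bs (mS N i (n + 1)) (seqF D i (n + 1))) :
    childB k (rotB (childS k' u) c x) = childB k x := by
  refine Prod.ext rfl ?_
  funext u'
  change Function.update x.2 (childS k' u) (rotS c (x.2 (childS k' u))) (childS k u') =
    x.2 (childS k u')
  exact Function.update_of_ne (fun h' => h (childS_inj h').1) _ _

end Pool.Agent.MP_d8b6c2_an.F
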