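import Mathlib
import Pool.Agent.Lib.MP_d8b6c2_an.F.Tree

/-! # The map `Gm` -/

namespace Pool.Agent.MP_d8b6c2_an.F

open Finset
open Pool.Agent.MP_d8b6c2_an.C

variable {N D : ℕ → ℕ} {i n : ℕ}

theorem sh_gam (k : ℕ) (t : unitInterval) : sh k (gam t) = gam t := rfl

theorem sh_Gm (k : Fin (N (i + n) - 1 + 1)) (x : Bs (mS N i (n + 1)) (seqF D i (n + 1))) :
    sh (k : ℕ) (Gm N D i (n + 1) x) = Gm N D i n (childB k x) := by
  funext v
  change (if h : (k : ℕ) < N (i + n) - 1 + 1 then Gm N D i n (childB ⟨k, h⟩ x) v
    else (0, fun _ => s0)) = _
  rw [dif_pos k.2]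

private theorem continuous_gam : Continuous gam :=
  continuous_pi fun _ => Continuous.prodMk continuous_id continuous_const

private theorem continuous_childB (k : Fin (N (i + n) - 1 + 1)) :
    Continuous (childB (N := N) (D := D) (i := i) k) := by
  refine Continuous.prodMk ?_ ?_
  · exact continuous_pi fun p => (continuous_apply (consP k p)).comp continuous_fst
  · exact continuous_pi fun u => (continuous_apply (childS k u)).comp continuous_snd

theorem Gm_continuous : Continuous (Gm N D i n) := by
  induction n with
  | zero =>
    change Continuous fun x : Bs (mS N i 0) (seqF D i 0) =>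
      gam (unitInterval.symm (x.1 fun t => t.elim0))
    exact continuous_gam.comp (unitInterval.continuous_symm.comp
      ((continuous_apply _).comp continuous_fst))
  | succ n ih =>
    refine continuous_pi fun v => ?_
    cases v with
    | nil =>
      change Continuous fun x : Bs (mS N i (n + 1)) (seqF D i (n + 1)) =>
        ((0 : unitInterval), fun s : ℕ => if h : s < D (i + n) then x.2 (rootS ⟨s, h⟩) else s0)
      refine Continuous.prodMk continuous_const (continuous_pi fun s => ?_)
      by_cases h : s < D (i + n)
      · simp only [h, dif_pos]
        exact (continuous_apply _).comp continuous_snd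
      · simp only [h, dif_neg, not_false_eq_true]
        exact continuous_const
    | cons a w =>
      change Continuous fun x : Bs (mS N i (n + 1)) (seqF D i (n + 1)) =>
        (if h : a < N (i + n) - 1 + 1 then Gm N D i n (childB ⟨a, h⟩ x) w
          else (0, fun _ => s0))
      by_cases h : a < N (i + n) - 1 + 1
      · simp only [h, dif_pos]
        exact (continuous_apply w).comp (ih.comp (continuous_childB ⟨a, h⟩))
      · simp only [h, dif_neg, not_false_eq_true]
        exact continuous_const

end Pool.Agent.MP_d8b6c2_an.F
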