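import Mathlib
import Pool.Agent.Lib.MP_d8b6c2_an.F.Map

/-! # The blocks of the leaves -/

namespace Pool.Agent.MP_d8b6c2_an.F

open Finset
open Pool.Agent.MP_d8b6c2_an.C

variable {N D : ℕ → ℕ} {i n : ℕ}

theorem ltr_emb (p : Pth (mS N i n)) (r : Ix N i) (t : Fin n) :
    ltr N i n (emb N i n p r) t = (p t : ℕ) := by
  induction n with
  | zero => exact t.elim0
  | succ n ih =>
    refine Fin.cases ?_ (fun t => ?_) t
    · rfl
    · exact ih (tailP p) t

theorem emb_inj {p p' : Pth (mS N i n)} {r r' : Ix N i} (h : emb N i n p r = emb N i n p' r') :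
    p = p' ∧ r = r' := by
  induction n with
  | zero => exact ⟨funext fun t => t.elim0, h⟩
  | succ n ih =>
    have h1 : ((headP p : Fin (N (i + n) - 1 + 1)) : ℕ) = (headP p' : ℕ) :=
      congrArg (fun z : Ix N (i + n + 1) => ((Ix.hd z : Fin (N (i + n) + 1)) : ℕ)) h
    have h2 : emb N i n (tailP p) r = emb N i n (tailP p') r' :=
      congrArg (fun z : Ix N (i + n + 1) => Ix.tl z) h
    obtain ⟨h3, h4⟩ := ih h2
    refine ⟨?_, h4⟩
    rw [← consP_head_tail p, ← consP_head_tail p', h3, Fin.ext h1]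

theorem wtI_emb (u : Sg (mS N i n) (seqF D i n)) (p : Pth (mS N i n)) (r : Ix N i) :
    wtI N D i n u (emb N i n p r) = lw p u := by
  unfold wtI lw
  have h1 : (∀ a : Fin n, a < u.1.1.1 → ltr N i n (emb N i n p r) a = (u.1.1.2 a : ℕ)) ↔
      pre (u.1.1.1 : ℕ) p = u.1.1.2 := by
    constructor
    · intro h
      funext a
      by_cases ha : (a : ℕ) < (u.1.1.1 : ℕ)
      · have h2 := h a ha
        rw [ltr_emb] at h2
        change (if (a : ℕ) < (u.1.1.1 : ℕ) then p a else 0) = _
        rw [if_pos ha]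
        exact Fin.ext h2
      · change (if (a : ℕ) < (u.1.1.1 : ℕ) then p a else 0) = _
        rw [if_neg ha]
        have h3 := congrFun u.1.2 a
        change (if (a : ℕ) < (u.1.1.1 : ℕ) then u.1.1.2 a else 0) = u.1.1.2 a at h3
        rw [if_neg ha] at h3
        exact h3
    · intro h a ha
      rw [ltr_emb, ← h]
      change _ = ((if (a : ℕ) < (u.1.1.1 : ℕ) then p a else 0 : Fin (mS N i n a + 1)) : ℕ)
      have ha' : (a : ℕ) < (u.1.1.1 : ℕ) := ha
      rw [if_pos ha']
  have h2 : ltr N i n (emb N i n p r) u.1.1.1 ≤ mS N i n u.1.1.1 := by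
    rw [ltr_emb]
    exact Nat.le_of_lt_succ (p u.1.1.1).2
  by_cases h : pre (u.1.1.1 : ℕ) p = u.1.1.2
  · rw [if_pos (h1.2 h), if_pos h2, if_pos h, ltr_emb]
  · rw [if_neg (fun h3 => h (h1.1 h3)), if_neg h]

variable {pt : ℕ → C.XX} {K : Type} [Fintype K] [DecidableEq K]

/-- the block of the leaf `p` of `φ(b)(Gm x)` is `b (gam (1 - x p))` -/
theorem phin_Gm (hN : ∀ l, 0 < N l) (b : EqA N D K i) (x : Bs (mS N i n) (seqF D i n))
    (p : Pth (mS N i n)) (κ κ' : K) (r r' : Ix N i) :
    (phin N D pt K i n b).1 (Gm N D i n x) (κ', emb N i n p r') (κ, emb N i n p r) =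
      b.1 (gam (unitInterval.symm (x.1 p))) (κ', r') (κ, r) := by
  induction n with
  | zero =>
    have h1 : p = fun t => t.elim0 := funext fun t => t.elim0
    rw [h1]
    rfl
  | succ n ih =>
    have h1 := phi_apply N D pt K (i + n) (phin N D pt K i n b) (Gm N D i (n + 1) x)
      (κ', emb N i (n + 1) p r') (κ, emb N i (n + 1) p r)
    refine h1.trans ?_
    refine (if_pos (rfl : Ix.hd (i := i + n) (emb N i (n + 1) p r') =
      Ix.hd (i := i + n) (emb N i (n + 1) p r))).trans ?_
    have h2 : nxt N pt (i + n) (Ix.hd (i := i + n) (emb N i (n + 1) p r')) (Gm N D i (n + 1) x) =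
        Gm N D i n (childB (headP p) x) := by
      have h3 : ((headP p : Fin (N (i + n) - 1 + 1)) : ℕ) < N (i + n) := by
        have h4 := (headP p).2
        have h5 := hN (i + n)
        omega
      have h6 : ((Ix.hd (i := i + n) (emb N i (n + 1) p r') : Fin (N (i + n) + 1)) : ℕ) =
          (headP p : ℕ) := rfl
      unfold nxt
      rw [h6, if_pos h3]
      exact sh_Gm (headP p) x
    have h7 := ih (childB (headP p) x) (tailP p)
    have h8 : (childB (headP p) x).1 (tailP p) = x.1 p := by
      change x.1 (consP (headP p) (tailP p)) = x.1 p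
      rw [consP_head_tail]
    rw [h8] at h7
    rw [← h7]
    exact congrArg (fun y => (phin N D pt K i n b).1 y (κ', emb N i n (tailP p) r')
      (κ, emb N i n (tailP p) r)) h2

theorem phin_Gm_off (hN : ∀ l, 0 < N l) (b : EqA N D K i) (x : Bs (mS N i n) (seqF D i n))
    (p : Pth (mS N i n)) (κ κ' : K) (r : Ix N i) (q : Ix N (i + n))
    (hq : ∀ r', q ≠ emb N i n p r') :
    (phin N D pt K i n b).1 (Gm N D i n x) (κ', q) (κ, emb N i n p r) = 0 := by
  induction n with
  | zero => exact absurd rfl (hq q)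
  | succ n ih =>
    have h1 := phi_apply N D pt K (i + n) (phin N D pt K i n b) (Gm N D i (n + 1) x)
      (κ', q) (κ, emb N i (n + 1) p r)
    refine h1.trans ?_
    by_cases h : Ix.hd (i := i + n) q = Ix.hd (i := i + n) (emb N i (n + 1) p r)
    · rw [if_pos h]
      have h2 : nxt N pt (i + n) (Ix.hd (i := i + n) q) (Gm N D i (n + 1) x) =
          Gm N D i n (childB (headP p) x) := by
        have h3 : ((headP p : Fin (N (i + n) - 1 + 1)) : ℕ) < N (i + n) := by
          have h4 := (headP p).2
          have h5 := hN (i + n)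
          omega
        have h6 : ((Ix.hd (i := i + n) q : Fin (N (i + n) + 1)) : ℕ) = (headP p : ℕ) := by
          rw [h]
          rfl
        unfold nxt
        rw [h6, if_pos h3]
        exact sh_Gm (headP p) x
      have h7 := ih (childB (headP p) x) (tailP p) (Ix.tl (i := i + n) q) (by
        intro r' h8
        apply hq r'
        exact (Ix.ext_iff' (i := i + n) _ _).2 ⟨h, h8⟩)
      refine Eq.trans ?_ h7
      exact congrArg (fun y => (phin N D pt K i n b).1 y (κ', Ix.tl (i := i + n) q)
        (κ, emb N i n (tailP p) r)) h2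
    · rw [if_neg h]

end Pool.Agent.MP_d8b6c2_an.F
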