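import Mathlib
import Pool.Agent.Lib.MP_d8b6c2_an.F.Emb
import Pool.Agent.Lib.MP_d8b6c2_an.C.Theta0

/-! # The certified subspaces -/

namespace Pool.Agent.MP_d8b6c2_an.F

open Finset
open Pool.Agent.MP_d8b6c2_an.C

variable {N D : ℕ → ℕ} {i n k k' r0 : ℕ}

open Classical in
/-- the frame `E` put in the block of the leaf `p` -/
noncomputable def eP (N : ℕ → ℕ) (i n k' : ℕ) (E : Matrix (Fin k × Ix N i) (Fin r0) ℂ)
    (p : Pth (mS N i n)) : Matrix (Fin k' × Ix N (i + n)) (Fin r0) ℂ :=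
  Matrix.of fun α j => ∑ r : Ix N i,
    if h : (α.1 : ℕ) < k ∧ α.2 = emb N i n p r then E (⟨α.1, h.1⟩, r) j else 0

theorem Frame_apply (E : Matrix (Fin k × Ix N i) (Fin r0) ℂ) (p : Pth (mS N i n))
    (α : Fin k' × Ix N (i + n)) (j : Fin r0) :
    eP N i n k' E p α j = ∑ r : Ix N i,
      if h : (α.1 : ℕ) < k ∧ α.2 = emb N i n p r then E (⟨α.1, h.1⟩, r) j else 0 := rfl

theorem eP_support {E : Matrix (Fin k × Ix N i) (Fin r0) ℂ} {p : Pth (mS N i n)}
    {α : Fin k' × Ix N (i + n)} {j : Fin r0} (h : eP N i n k' E p α j ≠ 0) :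
    ∃ r, α.2 = emb N i n p r := by
  by_contra hc
  push Not at hc
  apply h
  rw [Frame_apply]
  refine Finset.sum_eq_zero fun r _ => ?_
  rw [dif_neg]
  exact fun hh => hc r hh.2

theorem Frame_lt {E : Matrix (Fin k × Ix N i) (Fin r0) ℂ} {p : Pth (mS N i n)}
    {α : Fin k' × Ix N (i + n)} {j : Fin r0} (h : ¬ (α.1 : ℕ) < k) :
    eP N i n k' E p α j = 0 := by
  rw [Frame_apply]
  refine Finset.sum_eq_zero fun r _ => ?_
  rw [dif_neg]
  exact fun hh => h hh.1

theorem Frame_val (E : Matrix (Fin k × Ix N i) (Fin r0) ℂ) (p : Pth (mS N i n))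
    (κ : Fin k') (hκ : (κ : ℕ) < k) (r : Ix N i) (j : Fin r0) :
    eP N i n k' E p (κ, emb N i n p r) j = E (⟨κ, hκ⟩, r) j := by
  rw [Frame_apply, Finset.sum_eq_single r]
  · rw [dif_pos ⟨hκ, rfl⟩]
  · intro r' _ hr'
    rw [dif_neg]
    exact fun hh => hr' ((emb_inj hh.2).2).symm
  · intro hr
    exact absurd (Finset.mem_univ _) hr

/-- the injection onto the block of `p` -/
def Frame_inj (N : ℕ → ℕ) (i n : ℕ) {k k' : ℕ} (hk : k ≤ k') (p : Pth (mS N i n))
    (a : Fin k × Ix N i) : Fin k' × Ix N (i + n) := (Fin.castLE hk a.1, emb N i n p a.2)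

theorem Frame_injective (hk : k ≤ k') (p : Pth (mS N i n)) :
    Function.Injective (Frame_inj N i n hk p) := by
  rintro ⟨a, r⟩ ⟨a', r'⟩ h
  have h1 := congrArg Prod.fst h
  have h2 := congrArg Prod.snd h
  refine Prod.ext ?_ ?_
  · exact Fin.castLE_injective hk h1
  · exact (emb_inj h2).2

theorem Frame_sum (hk : k ≤ k') (E : Matrix (Fin k × Ix N i) (Fin r0) ℂ) (p : Pth (mS N i n))
    (F : Fin k' × Ix N (i + n) → ℂ) (j : Fin r0) :
    ∑ α, F α * eP N i n k' E p α j =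
      ∑ a : Fin k × Ix N i, F (Frame_inj N i n hk p a) * E a j := by
  symm
  refine Fintype.sum_of_injective (Frame_inj N i n hk p) (Frame_injective hk p) _ _ ?_ ?_
  · rintro ⟨κ, q⟩ hα
    by_cases hκ : (κ : ℕ) < k
    · by_cases hq : eP N i n k' E p (κ, q) j = 0
      · rw [hq, mul_zero]
      · obtain ⟨r, hr⟩ := eP_support hq
        exfalso
        apply hα
        exact ⟨(⟨κ, hκ⟩, r), Prod.ext (Fin.ext rfl) hr.symm⟩
    · rw [Frame_lt (α := (κ, q)) hκ, mul_zero]
  · rintro ⟨κ, r⟩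
    have h1 := Frame_val (k' := k') E p (Fin.castLE hk κ) κ.2 r j
    change F (Frame_inj N i n hk p (κ, r)) * E (κ, r) j =
      F (Frame_inj N i n hk p (κ, r)) * eP N i n k' E p (Fin.castLE hk κ, emb N i n p r) j
    rw [h1]
    rfl

theorem eP_orth (hk : k ≤ k') {E : Matrix (Fin k × Ix N i) (Fin r0) ℂ}
    (hE : E.conjTranspose * E = 1) (p : Pth (mS N i n)) :
    (eP N i n k' E p).conjTranspose * eP N i n k' E p = 1 := by
  rw [← hE]
  ext j j'
  rw [Matrix.mul_apply, Matrix.mul_apply]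
  simp only [Matrix.conjTranspose_apply]
  rw [Frame_sum hk E p (fun α => star (eP N i n k' E p α j)) j']
  refine Finset.sum_congr rfl fun a _ => ?_
  have h1 := Frame_val (k' := k') E p (Fin.castLE hk a.1) a.1.2 a.2 j
  change star (eP N i n k' E p (Fin.castLE hk a.1, emb N i n p a.2) j) * E a j' = _
  rw [h1]
  rfl

theorem eP_orth' {E : Matrix (Fin k × Ix N i) (Fin r0) ℂ} {p p' : Pth (mS N i n)}
    (h : p ≠ p') : (eP N i n k' E p).conjTranspose * eP N i n k' E p' = 0 := by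
  ext j j'
  rw [Matrix.mul_apply, Matrix.zero_apply]
  refine Finset.sum_eq_zero fun α _ => ?_
  rw [Matrix.conjTranspose_apply]
  by_cases h1 : eP N i n k' E p α j = 0
  · rw [h1, star_zero, zero_mul]
  · by_cases h2 : eP N i n k' E p' α j' = 0
    · rw [h2, mul_zero]
    · obtain ⟨r, hr⟩ := eP_support h1
      obtain ⟨r', hr'⟩ := eP_support h2
      exact absurd (emb_inj (hr.symm.trans hr')).1 h

variable {pt : ℕ → C.XX}

/-- `φ(b)(Gm x)` on the block of the leaf `p` with `x p = 1` -/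
theorem padF_mul_eP (hN : ∀ l, 0 < N l) (hk : k ≤ k') (b : EqA N D (Fin k) i)
    (x : Bs (mS N i n) (seqF D i n)) (p : Pth (mS N i n)) (hp : (x.1 p : ℝ) = 1)
    (E : Matrix (Fin k × Ix N i) (Fin r0) ℂ) :
    (padF ((phin N D pt (Fin k) i n b).1 (Gm N D i n x)) :
      Matrix (Fin k' × Ix N (i + n)) (Fin k' × Ix N (i + n)) ℂ) * eP N i n k' E p =
      eP N i n k' (b.1 (gam 0) * E) p := by
  ext α j
  obtain ⟨κ, q⟩ := α
  rw [Matrix.mul_apply, Frame_sum hk E p _ j]
  by_cases hκ : (κ : ℕ) < k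
  · have h1 : ∀ a : Fin k × Ix N i,
        (padF ((phin N D pt (Fin k) i n b).1 (Gm N D i n x)) :
          Matrix (Fin k' × Ix N (i + n)) (Fin k' × Ix N (i + n)) ℂ) (κ, q)
          (Frame_inj N i n hk p a) =
        (phin N D pt (Fin k) i n b).1 (Gm N D i n x) (⟨κ, hκ⟩, q) (a.1, emb N i n p a.2) := by
      intro a
      rw [padF_apply, dif_pos ⟨hκ, a.1.2⟩]
      rfl
    simp only [h1]
    by_cases hq : ∃ r', q = emb N i n p r'
    · obtain ⟨r', rfl⟩ := hq
      rw [Frame_val _ p κ hκ r' j, Matrix.mul_apply]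
      refine Finset.sum_congr rfl fun a _ => ?_
      rw [phin_Gm hN]
      have h2 : x.1 p = 1 := Subtype.ext hp
      rw [h2, unitInterval.symm_one]
    · push Not at hq
      have h3 : eP N i n k' (b.1 (gam 0) * E) p (κ, q) j = 0 := by
        by_contra h4
        obtain ⟨r, hr⟩ := eP_support h4
        exact hq r hr
      rw [h3]
      refine Finset.sum_eq_zero fun a _ => ?_
      rw [phin_Gm_off hN _ _ _ _ _ _ _ hq, zero_mul]
  · rw [Frame_lt (α := (κ, q)) hκ]
    refine Finset.sum_eq_zero fun a _ => ?_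
    rw [padF_apply, dif_neg (fun h => hκ h.1), zero_mul]

theorem eP_mul_diagonal (E : Matrix (Fin k × Ix N i) (Fin r0) ℂ) (p : Pth (mS N i n))
    (v : Fin r0 → ℂ) :
    eP N i n k' (E * Matrix.diagonal v) p = eP N i n k' E p * Matrix.diagonal v := by
  ext α j
  rw [Matrix.mul_diagonal, Frame_apply, Frame_apply, Finset.sum_mul]
  refine Finset.sum_congr rfl fun r _ => ?_
  split_ifs with h
  · rw [Matrix.mul_diagonal]
  · rw [zero_mul]

end Pool.Agent.MP_d8b6c2_an.F
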