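import Mathlib
import Pool.Agent.Lib.MP_d8b6c2_an.F.Map

/-! # Means of `h` -/

namespace Pool.Agent.MP_d8b6c2_an.F

open Finset
open Pool.Agent.MP_d8b6c2_an.C

variable {N D : ℕ → ℕ} {i n : ℕ} {pt : ℕ → C.XX}

private theorem HH_zero' (x : C.XX) : HH N pt 0 x = hF x := rfl

private theorem HH_succ' (l : ℕ) (x : C.XX) :
    HH N pt (l + 1) x =
      ((N l : ℝ) + 1)⁻¹ * ∑ m : Fin (N l + 1), HH N pt l (nxt N pt l m x) := rfl

theorem HH_mem (i : ℕ) (x : C.XX) : 1 / 4 ≤ HH N pt i x ∧ HH N pt i x ≤ 1 := by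
  induction i generalizing x with
  | zero =>
    rw [HH_zero', hF]
    have h1 := (x []).1.2.1
    have h2 := (x []).1.2.2
    constructor <;> linarith
  | succ i ih =>
    rw [HH_succ']
    have hp : (0 : ℝ) < (N i : ℝ) + 1 := by positivity
    have hc : ((Finset.univ : Finset (Fin (N i + 1))).card : ℝ) = (N i : ℝ) + 1 := by
      rw [Finset.card_univ, Fintype.card_fin]
      push_cast
      ring
    have h1 : ((N i : ℝ) + 1) * (1 / 4) ≤
        ∑ m : Fin (N i + 1), HH N pt i (nxt N pt i m x) := by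
      have h := Finset.card_nsmul_le_sum (Finset.univ : Finset (Fin (N i + 1)))
        (fun m => HH N pt i (nxt N pt i m x)) (1 / 4) (fun m _ => (ih _).1)
      rw [nsmul_eq_mul, hc] at h
      exact h
    have h2 : ∑ m : Fin (N i + 1), HH N pt i (nxt N pt i m x) ≤ ((N i : ℝ) + 1) * 1 := by
      have h := Finset.sum_le_card_nsmul (Finset.univ : Finset (Fin (N i + 1)))
        (fun m => HH N pt i (nxt N pt i m x)) 1 (fun m _ => (ih _).2)
      rw [nsmul_eq_mul, hc] at h
      exact h
    constructor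
    · rw [inv_mul_eq_div, le_div_iff₀ hp]
      linarith
    · rw [inv_mul_eq_div, div_le_iff₀ hp]
      linarith

theorem nn_HH_succ (l : ℕ) (x : C.XX) :
    (nn N (l + 1) : ℝ) * HH N pt (l + 1) x =
      nn N l * ∑ m : Fin (N l + 1), HH N pt l (nxt N pt l m x) := by
  rw [HH_succ']
  have hp : (N l : ℝ) + 1 ≠ 0 := by positivity
  have h : (nn N (l + 1) : ℝ) = ((N l : ℝ) + 1) * nn N l := by
    simp only [nn]
    push_cast
    ring
  rw [h]
  field_simp

private theorem sum_split (a : ℕ) (f : Fin (a + 1) → ℝ) :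
    ∑ m : Fin (a + 1), f m = ∑ k : Fin a, f k.castSucc + f (Fin.last a) :=
  Fin.sum_univ_castSucc f

private theorem sum_castSucc' {a : ℕ} (ha : a - 1 + 1 = a) (f : Fin (a + 1) → ℝ)
    (g : Fin (a - 1 + 1) → ℝ)
    (h : ∀ (k : ℕ) (hk : k < a) , f ⟨k, by omega⟩ = g ⟨k, by omega⟩) :
    ∑ k : Fin a, f k.castSucc = ∑ k : Fin (a - 1 + 1), g k := by
  refine Fintype.sum_equiv (finCongr ha.symm) _ _ fun k => ?_
  exact h k k.2

/-- words which are not leaves contribute at most `1` -/
theorem HH_Gm_le (hN : ∀ l, 0 < N l) (x : Bs (mS N i n) (seqF D i n)) :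
    (nn N (i + n) : ℝ) * HH N pt (i + n) (Gm N D i n x) ≤
      nn N i * ∑ p, HH N pt i (gam (unitInterval.symm (x.1 p))) +
        (nn N (i + n) - nn N i * RR N i n) := by
  induction n with
  | zero =>
    have h1 : ∑ p : Pth (mS N i 0), HH N pt i (gam (unitInterval.symm (x.1 p))) =
        HH N pt i (gam (unitInterval.symm (x.1 fun t => t.elim0))) := by
      rw [Fintype.sum_unique]
      congr 4
    rw [h1]
    simp only [Gm, RR, Nat.cast_one, mul_one, sub_self, add_zero]
    exact le_refl _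
  | succ n ih =>
    have ha : N (i + n) - 1 + 1 = N (i + n) := by have := hN (i + n); omega
    have h0 : (nn N (i + (n + 1)) : ℝ) * HH N pt (i + (n + 1)) (Gm N D i (n + 1) x) =
        nn N (i + n) * ∑ m : Fin (N (i + n) + 1),
          HH N pt (i + n) (nxt N pt (i + n) m (Gm N D i (n + 1) x)) :=
      nn_HH_succ (i + n) (Gm N D i (n + 1) x)
    have h1 : ∑ m : Fin (N (i + n) + 1),
          HH N pt (i + n) (nxt N pt (i + n) m (Gm N D i (n + 1) x)) =
        ∑ k : Fin (N (i + n) - 1 + 1), HH N pt (i + n) (Gm N D i n (childB k x)) +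
          HH N pt (i + n) (nxt N pt (i + n) (Fin.last _) (Gm N D i (n + 1) x)) := by
      rw [sum_split]
      congr 1
      refine sum_castSucc' ha
        (fun m => HH N pt (i + n) (nxt N pt (i + n) m (Gm N D i (n + 1) x)))
        (fun k => HH N pt (i + n) (Gm N D i n (childB k x))) ?_
      intro k hk
      have h2 : nxt N pt (i + n) ⟨k, by omega⟩ (Gm N D i (n + 1) x) =
          sh k (Gm N D i (n + 1) x) := by
        simp only [nxt, hk, if_true]
      rw [h2]
      have h3 := sh_Gm (N := N) (D := D) (i := i) (n := n) ⟨k, by omega⟩ x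
      exact congrArg _ h3
    have h2 : HH N pt (i + n) (nxt N pt (i + n) (Fin.last _) (Gm N D i (n + 1) x)) ≤ 1 :=
      (HH_mem _ _).2
    have h3 : ∑ k : Fin (N (i + n) - 1 + 1),
        (nn N (i + n) : ℝ) * HH N pt (i + n) (Gm N D i n (childB k x)) ≤
        ∑ k : Fin (N (i + n) - 1 + 1),
          (nn N i * ∑ p, HH N pt i (gam (unitInterval.symm ((childB k x).1 p))) +
            (nn N (i + n) - nn N i * RR N i n)) :=
      Finset.sum_le_sum fun k _ => ih (childB k x)
    have h4 : ∑ p, HH N pt i (gam (unitInterval.symm (x.1 p))) =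
        ∑ k : Fin (N (i + n) - 1 + 1),
          ∑ p, HH N pt i (gam (unitInterval.symm ((childB k x).1 p))) :=
      sum_Pth_succ (fun p => HH N pt i (gam (unitInterval.symm (x.1 p))))
    have h5 : (nn N (i + (n + 1)) : ℝ) = ((N (i + n) : ℝ) + 1) * nn N (i + n) := by
      have : nn N (i + (n + 1)) = (N (i + n) + 1) * nn N (i + n) := rfl
      rw [this]
      push_cast
      ring
    have h6 : (RR N i (n + 1) : ℝ) = (N (i + n) : ℝ) * RR N i n := by
      simp only [RR]
      push_cast
      ring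
    have hnn : (0 : ℝ) ≤ nn N (i + n) := Nat.cast_nonneg _
    rw [h0, h1, h4, h6, mul_add, Finset.mul_sum]
    have hc : ((N (i + n) - 1 + 1 : ℕ) : ℝ) = (N (i + n) : ℝ) := by rw [ha]
    rw [Finset.sum_add_distrib, Finset.sum_const, Finset.card_univ, Fintype.card_fin,
      nsmul_eq_mul, hc, ← Finset.mul_sum (s := Finset.univ)
        (f := fun k => ∑ p, HH N pt i (gam (unitInterval.symm ((childB k x).1 p))))] at h3
    have h7 : (nn N (i + n) : ℝ) *
        HH N pt (i + n) (nxt N pt (i + n) (Fin.last _) (Gm N D i (n + 1) x)) ≤ nn N (i + n) * 1 :=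
      mul_le_mul_of_nonneg_left h2 hnn
    rw [h5]
    nlinarith [h3, h7]

/-- the value at constant trees: the genuine words give `1 - 3/4 t` -/
theorem HH_gam (hN : ∀ l, 0 < N l) (l : ℕ) (t : unitInterval) :
    |(nn N l : ℝ) * HH N pt l (gam t) - nn N l * (1 - 3 / 4 * (t : ℝ))| ≤
      3 / 4 * (nn N l - RR N 0 l) := by
  induction l with
  | zero =>
    have h1 : HH N pt 0 (gam t) = 1 - 3 / 4 * (t : ℝ) := rfl
    rw [h1]
    simp [nn, RR]
  | succ l ih =>
    have h1 : ∑ m : Fin (N l + 1), HH N pt l (nxt N pt l m (gam t)) =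
        N l * HH N pt l (gam t) + HH N pt l (nxt N pt l (Fin.last _) (gam t)) := by
      rw [sum_split]
      congr 1
      have h2 : ∀ k : Fin (N l), HH N pt l (nxt N pt l k.castSucc (gam t)) =
          HH N pt l (gam t) := by
        intro k
        have h3 : nxt N pt l k.castSucc (gam t) = sh (k : ℕ) (gam t) := by
          simp only [nxt, Fin.val_castSucc, k.2, if_true]
        rw [h3, sh_gam]
      rw [Finset.sum_congr rfl fun k _ => h2 k, Finset.sum_const, Finset.card_univ,
        Fintype.card_fin, nsmul_eq_mul]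
    have h2 : (nn N (l + 1) : ℝ) = ((N l : ℝ) + 1) * nn N l := by
      simp only [nn]
      push_cast
      ring
    have h3 : (RR N 0 (l + 1) : ℝ) = (N l : ℝ) * RR N 0 l := by
      simp only [RR, Nat.zero_add]
      push_cast
      ring
    have h4 := HH_mem (N := N) (pt := pt) l (nxt N pt l (Fin.last _) (gam t))
    have ht0 := t.2.1
    have ht1 := t.2.2
    rw [nn_HH_succ, h1, h3, h2]
    have hn : (0 : ℝ) ≤ nn N l := Nat.cast_nonneg _
    have hNl : (0 : ℝ) ≤ N l := Nat.cast_nonneg _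
    rw [abs_le] at ih ⊢
    set H := HH N pt l (gam t)
    set P := HH N pt l (nxt N pt l (Fin.last _) (gam t))
    obtain ⟨ih1, ih2⟩ := ih
    have e1 := mul_le_mul_of_nonneg_left ih1 hNl
    have e2 := mul_le_mul_of_nonneg_left ih2 hNl
    have e3 : (nn N l : ℝ) * (P - (1 - 3 / 4 * (t : ℝ))) ≤ nn N l * (3 / 4) :=
      mul_le_mul_of_nonneg_left (by linarith [h4.2]) hn
    have e4 : (nn N l : ℝ) * (-(3 / 4)) ≤ nn N l * (P - (1 - 3 / 4 * (t : ℝ))) :=
      mul_le_mul_of_nonneg_left (by linarith [h4.1]) hn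
    constructor
    · nlinarith [e1, e4]
    · nlinarith [e2, e3]

end Pool.Agent.MP_d8b6c2_an.F
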