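import Mathlib
import Pool.Agent.Lib.MP_d8b6c2_an.F.Defs
import Pool.Agent.Lib.MP_d8b6c2_an.C.Main

/-! # Numerical facts -/

namespace Pool.Agent.MP_d8b6c2_an.F

open Finset
open Pool.Agent.MP_d8b6c2_an.C

variable {N D M cap : ℕ → ℕ} {i n : ℕ}

theorem seqF_zero (f : ℕ → ℕ) (i n : ℕ) : seqF f i (n + 1) 0 = f (i + n) := rfl

theorem seqF_succ (f : ℕ → ℕ) (i n : ℕ) (t : Fin n) : seqF f i (n + 1) t.succ = seqF f i n t := rfl

private theorem num1_nn_pos (N : ℕ → ℕ) (i : ℕ) : 1 ≤ nn N i := by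
  induction i with
  | zero => exact le_rfl
  | succ i ih =>
    change 1 ≤ (N i + 1) * nn N i
    exact Nat.one_le_iff_ne_zero.mpr (Nat.mul_ne_zero (by omega) (by omega))

private theorem num1_ex (i n : ℕ) (t : Fin n) : ∃ l, ∀ f : ℕ → ℕ, seqF f i n t = f l := by
  induction n with
  | zero => exact t.elim0
  | succ n ih =>
    refine Fin.cases ?_ (fun s => ?_) t
    · exact ⟨i + n, fun f => rfl⟩
    · obtain ⟨l, hl⟩ := ih s
      exact ⟨l, fun f => hl f⟩

private theorem num1_N_ge (h : Nums N D M cap) (l : ℕ) : 400 ≤ N l := by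
  rw [h.hN]
  have := Nat.one_le_two_pow (n := l)
  omega

private theorem num1_nn_aux (h : Nums N D M cap) (i n : ℕ) :
    (nn N (i + n) : ℝ) ≤ (101 / 100 - 1 / (100 * 2 ^ n)) * (nn N i * RR N i n) := by
  induction n with
  | zero =>
    have h1 : RR N i 0 = 1 := rfl
    rw [h1, Nat.cast_one, mul_one, Nat.add_zero]
    norm_num
  | succ n ih =>
    have h1 : nn N (i + (n + 1)) = (N (i + n) + 1) * nn N (i + n) := rfl
    have h2 : RR N i (n + 1) = N (i + n) * RR N i n := rfl
    rw [h1, h2]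
    push_cast
    have hc : (0 : ℝ) ≤ (nn N i : ℝ) * RR N i n := by positivity
    have hN : (400 * 2 ^ n : ℝ) ≤ N (i + n) := by
      rw [h.hN, pow_add]
      push_cast
      have h3 : (1 : ℝ) ≤ 2 ^ i := one_le_pow₀ (by norm_num)
      have h4 : (0 : ℝ) < 2 ^ n := by positivity
      nlinarith
    have hp : (0 : ℝ) < 2 ^ n := by positivity
    have hN0 : (0 : ℝ) ≤ N (i + n) := Nat.cast_nonneg _
    have key : ((N (i + n) : ℝ) + 1) * (101 / 100 - 1 / (100 * 2 ^ n)) ≤
        (101 / 100 - 1 / (100 * 2 ^ (n + 1))) * N (i + n) := by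
      have e1 : (1 : ℝ) / (100 * 2 ^ n) = 1 / 100 * (1 / 2 ^ n) := by
        field_simp
      have e2 : (1 : ℝ) / (100 * 2 ^ (n + 1)) = 1 / 200 * (1 / 2 ^ n) := by
        rw [pow_succ]
        field_simp
        norm_num
      rw [e1, e2]
      have h5 : (400 : ℝ) ≤ N (i + n) * (1 / 2 ^ n) := by
        rw [mul_one_div, le_div_iff₀ hp]
        exact hN
      have h6 : (0 : ℝ) ≤ 1 / 2 ^ n := by positivity
      nlinarith
    calc ((N (i + n) : ℝ) + 1) * nn N (i + n)
        ≤ ((N (i + n) : ℝ) + 1) * ((101 / 100 - 1 / (100 * 2 ^ n)) * (nn N i * RR N i n)) :=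
          mul_le_mul_of_nonneg_left ih (by linarith)
      _ = ((N (i + n) : ℝ) + 1) * (101 / 100 - 1 / (100 * 2 ^ n)) * (nn N i * RR N i n) := by ring
      _ ≤ (101 / 100 - 1 / (100 * 2 ^ (n + 1))) * N (i + n) * (nn N i * RR N i n) :=
          mul_le_mul_of_nonneg_right key hc
      _ = _ := by ring

theorem nn_le (h : Nums N D M cap) (i n : ℕ) :
    (nn N (i + n) : ℝ) ≤ 101 / 100 * (nn N i * RR N i n) := by
  refine (num1_nn_aux h i n).trans (mul_le_mul_of_nonneg_right ?_ (by positivity))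
  have : (0 : ℝ) ≤ 1 / (100 * 2 ^ n) := by positivity
  linarith

theorem RR_le_nn (i n : ℕ) : nn N i * RR N i n ≤ nn N (i + n) := by
  induction n with
  | zero =>
    change nn N i * 1 ≤ nn N i
    rw [mul_one]
  | succ n ih =>
    change nn N i * (N (i + n) * RR N i n) ≤ (N (i + n) + 1) * nn N (i + n)
    calc nn N i * (N (i + n) * RR N i n) = N (i + n) * (nn N i * RR N i n) := by ring
      _ ≤ (N (i + n) + 1) * nn N (i + n) := Nat.mul_le_mul (Nat.le_succ _) ih

theorem RR_ge (h : Nums N D M cap) (hi : 1 ≤ i) (hn : 1 ≤ n) : 800 ≤ RR N i n := by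
  have hN : ∀ l, 1 ≤ l → 800 ≤ N l := by
    intro l hl
    rw [h.hN]
    have h1 : 2 ^ 1 ≤ 2 ^ l := Nat.pow_le_pow_right (by norm_num) hl
    omega
  have h1 : ∀ n, 1 ≤ RR N i n := by
    intro n
    induction n with
    | zero => exact le_rfl
    | succ n ih =>
      change 1 ≤ N (i + n) * RR N i n
      have := hN (i + n) (by omega)
      exact Nat.one_le_iff_ne_zero.mpr (Nat.mul_ne_zero (by omega) (by omega))
  obtain ⟨n, rfl⟩ : ∃ k, n = k + 1 := ⟨n - 1, by omega⟩
  change 800 ≤ N (i + n) * RR N i n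
  calc 800 = 800 * 1 := rfl
    _ ≤ N (i + n) * RR N i n := Nat.mul_le_mul (hN _ (by omega)) (h1 n)

theorem nn_ge (h : Nums N D M cap) (hi : 1 ≤ i) : 401 ≤ nn N i := by
  obtain ⟨i, rfl⟩ : ∃ k, i = k + 1 := ⟨i - 1, by omega⟩
  change 401 ≤ (N i + 1) * nn N i
  have h1 := num1_N_ge h i
  calc 401 = 401 * 1 := rfl
    _ ≤ (N i + 1) * nn N i := Nat.mul_le_mul (by omega) (num1_nn_pos N i)

theorem sum_seqF (f : ℕ → ℕ) (i n : ℕ) :
    ∑ t, seqF f i n t = ∑ l ∈ Finset.Ico i (i + n), f l := by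
  induction n with
  | zero => simp
  | succ n ih =>
    rw [Fin.sum_univ_succ, ← Nat.add_assoc, Finset.sum_Ico_succ_top (Nat.le_add_right i n)]
    simp only [seqF_zero, seqF_succ]
    rw [ih, add_comm]

theorem hM_seq (h : Nums N D M cap) (i n : ℕ) (t : Fin n) :
    ∑ u ∈ univ.filter (t < ·), seqF D i n u < seqF M i n t := by
  induction n with
  | zero => exact t.elim0
  | succ n ih =>
    rw [sum_filter, Fin.sum_univ_succ]
    refine Fin.cases ?_ (fun s => ?_) t
    · rw [if_neg (lt_irrefl _), zero_add]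
      have h1 : (∑ u : Fin n, if (0 : Fin (n + 1)) < u.succ then seqF D i (n + 1) u.succ else 0) =
          ∑ u, seqF D i n u := by
        refine sum_congr rfl fun u _ => ?_
        rw [if_pos (Fin.succ_pos u), seqF_succ]
      rw [h1, seqF_zero, sum_seqF]
      refine lt_of_le_of_lt ?_ (h.hM (i + n))
      refine sum_le_sum_of_subset ?_
      intro l hl
      exact mem_range.mpr (mem_Ico.mp hl).2
    · rw [if_neg (Fin.not_lt_zero _), zero_add, seqF_succ]
      have h1 : (∑ u : Fin n, if s.succ < u.succ then seqF D i (n + 1) u.succ else 0) =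
          ∑ u ∈ univ.filter (s < ·), seqF D i n u := by
        rw [sum_filter]
        refine sum_congr rfl fun u _ => ?_
        rw [seqF_succ]
        simp only [Fin.succ_lt_succ_iff]
      rw [h1]
      exact ih s

theorem hd_seq (h : Nums N D M cap) (i n : ℕ) (t : Fin n) :
    seqF D i n t = eexp (seqF M i n) (mS N i n) t * seqF cap i n t := by
  obtain ⟨l, hl⟩ := num1_ex i n t
  unfold eexp
  rw [hl D, hl M, hl cap]
  have h1 : mS N i n t = N l - 1 := hl fun l => N l - 1
  have h2 := num1_N_ge h l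
  rw [h1, h.hD, Nat.sub_add_cancel (by omega)]

theorem hcap_seq (h : Nums N D M cap) (i n : ℕ) (t : Fin n) : 0 < seqF cap i n t := by
  obtain ⟨l, hl⟩ := num1_ex i n t
  rw [hl, h.hcap]
  have h1 := num1_nn_pos N (l + 1)
  positivity

end Pool.Agent.MP_d8b6c2_an.F
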