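import Mathlib
import Pool.Agent.Lib.MP_d8b6c2_an.F.Defs
import Pool.Agent.Lib.MP_d8b6c2_an.C.Main
import Pool.Agent.Lib.MP_d8b6c2_an.F.Num1

/-! # Numerical facts -/

namespace Pool.Agent.MP_d8b6c2_an.F

open Finset
open Pool.Agent.MP_d8b6c2_an.C

variable {N D M cap : ℕ → ℕ} {i n : ℕ}

private theorem prod_mS (hN : ∀ l, 0 < N l) (i n : ℕ) :
    ∏ s, (mS N i n s + 1) = RR N i n := by
  induction n with
  | zero => rfl
  | succ n ih =>
    rw [Fin.prod_univ_succ]
    have h0 : mS N i (n + 1) 0 + 1 = N (i + n) := by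
      have h1 : mS N i (n + 1) 0 = N (i + n) - 1 := rfl
      have h2 := hN (i + n)
      omega
    have h1 : ∏ s : Fin n, (mS N i (n + 1) s.succ + 1) = ∏ s : Fin n, (mS N i n s + 1) :=
      Finset.prod_congr rfl fun s _ => rfl
    rw [h0, h1, ih]
    rfl

theorem nlv_zero (hN : ∀ l, 0 < N l) (i n : ℕ) : nlv (mS N i (n + 1)) 0 = RR N i (n + 1) := by
  rw [← prod_mS hN i (n + 1)]
  unfold nlv
  rw [Finset.filter_true_of_mem]
  intro s _
  exact Fin.zero_le s

theorem nlv_succ (i n : ℕ) (t : Fin n) : nlv (mS N i (n + 1)) t.succ = nlv (mS N i n) t := by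
  unfold nlv
  rw [Finset.prod_filter, Finset.prod_filter, Fin.prod_univ_succ]
  rw [if_neg (by simp), one_mul]
  refine Finset.prod_congr rfl fun s _ => ?_
  by_cases h : t ≤ s
  · rw [if_pos h, if_pos (Fin.succ_le_succ_iff.2 h)]
    rfl
  · rw [if_neg h, if_neg (fun h' => h (Fin.succ_le_succ_iff.1 h'))]

private theorem sum_nlv_cap (h : Nums N D M cap) (i n : ℕ) :
    ∑ t, (nlv (mS N i n) t : ℝ) / seqF cap i n t ≤
      (1 - (1 / 2 : ℝ) ^ n) / (100 * 2 ^ i * nn N i) := by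
  have hNpos : ∀ l, 0 < N l := fun l => by rw [h.hN]; positivity
  induction n with
  | zero => simp
  | succ n ih =>
    rw [Fin.sum_univ_succ]
    have hs : ∑ t : Fin n, (nlv (mS N i (n + 1)) t.succ : ℝ) / (seqF cap i (n + 1) t.succ : ℕ) =
        ∑ t : Fin n, (nlv (mS N i n) t : ℝ) / (seqF cap i n t : ℕ) := by
      refine Finset.sum_congr rfl fun t _ => ?_
      rw [nlv_succ, seqF_succ]
    rw [hs, nlv_zero hNpos, seqF_zero, h.hcap]
    have h1 := RR_le_nn (N := N) i (n + 1)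
    have h1' : (nn N i : ℝ) * RR N i (n + 1) ≤ nn N (i + n + 1) := by
      have : nn N i * RR N i (n + 1) ≤ nn N (i + n + 1) := h1
      exact_mod_cast this
    have hp1 : (0 : ℝ) < nn N i := by exact_mod_cast nn_pos (N := N) i
    have hp2 : (0 : ℝ) < nn N (i + n + 1) := by exact_mod_cast nn_pos (N := N) (i + n + 1)
    have h2 : (RR N i (n + 1) : ℝ) / ((100 * 2 ^ (i + n + 1) * nn N (i + n + 1) : ℕ) : ℝ) ≤
        (1 / 2 : ℝ) ^ (n + 1) / (100 * 2 ^ i * nn N i) := by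
      push_cast
      rw [div_le_div_iff₀ (by positivity) (by positivity)]
      have h3 : (1 / 2 : ℝ) ^ (n + 1) * (100 * 2 ^ (i + n + 1) * nn N (i + n + 1)) =
          100 * 2 ^ i * nn N (i + n + 1) := by
        rw [show i + n + 1 = i + (n + 1) from rfl, pow_add (2 : ℝ) i (n + 1)]
        have : (1 / 2 : ℝ) ^ (n + 1) * 2 ^ (n + 1) = 1 := by
          rw [← mul_pow]; norm_num
        linear_combination (100 * 2 ^ i * (nn N (i + (n + 1)) : ℝ)) * this
      rw [h3]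
      nlinarith [h1', pow_pos (two_pos : (0 : ℝ) < 2) i]
    calc _ ≤ (1 / 2 : ℝ) ^ (n + 1) / (100 * 2 ^ i * nn N i) +
          (1 - (1 / 2 : ℝ) ^ n) / (100 * 2 ^ i * nn N i) := add_le_add h2 ih
      _ = (1 - (1 / 2 : ℝ) ^ (n + 1)) / (100 * 2 ^ i * nn N i) := by
        rw [← add_div]
        congr 1
        rw [pow_succ]
        ring

/-- `∑ nlv/cap ≤ 1/(100 nn i)`, by induction on `n` (with `1 - 2^(-n)` on the right side) -/
theorem ho_seq (h : Nums N D M cap) (hi : 1 ≤ i) (hn : 1 ≤ n) :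
    ∑ t, ((2 * nn N (i + n) : ℕ) : ℝ) * nlv (mS N i n) t / seqF cap i n t ≤
      ((RR N i n / 20 : ℕ) : ℝ) := by
  have h1 := sum_nlv_cap h i n
  have h2 := nn_le h i n
  have h3 := RR_ge h hi hn
  have hp1 : (0 : ℝ) < nn N i := by exact_mod_cast nn_pos (N := N) i
  have h3' : (800 : ℝ) ≤ RR N i n := by exact_mod_cast h3
  have h4 : (RR N i n : ℝ) ≤ 20 * ((RR N i n / 20 : ℕ) : ℝ) + 19 := by
    have : RR N i n ≤ 20 * (RR N i n / 20) + 19 := by omega
    exact_mod_cast this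
  have h5 : ∑ t, (nlv (mS N i n) t : ℝ) / seqF cap i n t ≤ 1 / (200 * nn N i) := by
    refine h1.trans ?_
    rw [div_le_div_iff₀ (by positivity) (by positivity)]
    have h6 : (0 : ℝ) ≤ (1 / 2 : ℝ) ^ n := by positivity
    have h7 : (2 : ℝ) ≤ 2 ^ i := by
      calc (2 : ℝ) = 2 ^ 1 := by norm_num
        _ ≤ 2 ^ i := pow_le_pow_right₀ (by norm_num) hi
    nlinarith [mul_nonneg h6 hp1.le, mul_le_mul_of_nonneg_right h7 hp1.le]
  have h8 : ∑ t, ((2 * nn N (i + n) : ℕ) : ℝ) * nlv (mS N i n) t / seqF cap i n t =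
      (2 * nn N (i + n) : ℝ) * ∑ t, (nlv (mS N i n) t : ℝ) / seqF cap i n t := by
    rw [Finset.mul_sum]
    refine Finset.sum_congr rfl fun t _ => ?_
    push_cast
    rw [mul_div_assoc]
  rw [h8]
  calc (2 * nn N (i + n) : ℝ) * ∑ t, (nlv (mS N i n) t : ℝ) / seqF cap i n t
      ≤ (2 * nn N (i + n) : ℝ) * (1 / (200 * nn N i)) :=
        mul_le_mul_of_nonneg_left h5 (by positivity)
    _ = nn N (i + n) / (100 * nn N i) := by field_simp; ring
    _ ≤ (101 / 100 * (nn N i * RR N i n)) / (100 * nn N i) :=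
        div_le_div_of_nonneg_right h2 (by positivity)
    _ = 101 / 10000 * RR N i n := by field_simp; ring
    _ ≤ ((RR N i n / 20 : ℕ) : ℝ) := by linarith

end Pool.Agent.MP_d8b6c2_an.F
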