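import Mathlib
import Pool.Agent.Lib.MP_d8b6c2_an.F.Map

/-! # Rotations of the spheres of `Gm` -/

namespace Pool.Agent.MP_d8b6c2_an.F

open Finset
open Pool.Agent.MP_d8b6c2_an.C

variable {N D : ℕ → ℕ} {i n : ℕ}

private theorem rotS_one (z : S3) : rotS 1 z = z := by
  apply Subtype.ext
  funext j
  change ((1 : Circle) : ℂ) * z.1 j = z.1 j
  rw [Circle.coe_one, one_mul]

/-- letters and weights under `Ix.cons` -/
theorem wtI_root (s : Fin (D (i + n))) (q : Ix N (i + n + 1)) (hN : 0 < N (i + n)) :
    wtI N D i (n + 1) (rootS s) q = if (Ix.hd q : ℕ) < N (i + n) then (Ix.hd q : ℕ) else 0 := by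
  have h0 : ∀ a : Fin (n + 1), a < (rootS (N := N) (D := D) (i := i) s).1.1.1 →
      ltr N i (n + 1) q a = ((rootS (N := N) (D := D) (i := i) s).1.1.2 a : ℕ) := by
    intro a ha
    exact absurd ha (Nat.not_lt_zero _)
  have h1 : ltr N i (n + 1) q (rootS (N := N) (D := D) (i := i) s).1.1.1 = (Ix.hd q : ℕ) := rfl
  have h2 : mS N i (n + 1) (rootS (N := N) (D := D) (i := i) s).1.1.1 = N (i + n) - 1 := rfl
  unfold wtI
  rw [if_pos h0, h1, h2]
  by_cases h : (Ix.hd q : ℕ) < N (i + n)
  · rw [if_pos h, if_pos (by omega)]
  · rw [if_neg h, if_neg (by omega)]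

theorem wtI_child (k : Fin (N (i + n) - 1 + 1)) (u : Sg (mS N i n) (seqF D i n))
    (q : Ix N (i + n + 1)) :
    wtI N D i (n + 1) (childS k u) q =
      if (Ix.hd q : ℕ) = (k : ℕ) then wtI N D i n u (Ix.tl q) else 0 := by
  have h1 : ltr N i (n + 1) q (childS k u).1.1.1 = ltr N i n (Ix.tl q) u.1.1.1 := rfl
  have h2 : mS N i (n + 1) (childS k u).1.1.1 = mS N i n u.1.1.1 := rfl
  have h3 : (∀ a : Fin (n + 1), a < (childS k u).1.1.1 →
      ltr N i (n + 1) q a = ((childS k u).1.1.2 a : ℕ)) ↔
      (Ix.hd q : ℕ) = (k : ℕ) ∧ ∀ a : Fin n, a < u.1.1.1 →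
        ltr N i n (Ix.tl q) a = (u.1.1.2 a : ℕ) := by
    constructor
    · intro h
      refine ⟨h 0 (Fin.succ_pos _), ?_⟩
      intro a ha
      exact h a.succ (Fin.succ_lt_succ_iff.2 ha)
    · rintro ⟨h4, h5⟩ a
      refine Fin.cases ?_ (fun a => ?_) a
      · intro _
        exact h4
      · intro ha
        exact h5 a (Fin.succ_lt_succ_iff.1 ha)
  unfold wtI
  rw [h1, h2]
  by_cases h4 : (Ix.hd q : ℕ) = (k : ℕ)
  · rw [if_pos h4]
    by_cases h5 : ∀ a : Fin n, a < u.1.1.1 → ltr N i n (Ix.tl q) a = (u.1.1.2 a : ℕ)
    · rw [if_pos h5, if_pos (h3.2 ⟨h4, h5⟩)]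
    · rw [if_neg h5, if_neg (fun h => h5 (h3.1 h).2)]
  · rw [if_neg h4, if_neg (fun h => h4 (h3.1 h).1)]

theorem chi_one (l : ℕ) (q : Ix N l) : chi N D l q (fun _ _ => 1) = 1 := by
  induction l with
  | zero => rfl
  | succ l ih =>
    have h1 : chi N D (l + 1) q (fun _ _ => 1) =
        if (q.hd : ℕ) < N l then
          (∏ _s ∈ Finset.range (D l), (1 : Circle)) ^ (q.hd : ℕ) *
            chi N D l q.tl (fun _ _ => 1)
        else 1 := rfl
    rw [h1, ih]
    simp

/-- Rotating the sphere `u` is the action of a group element supported at one node; its characters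
are given by the weights. Induction on `n`, `sg_cases`: for `rootS s` take `g v s' = c` if
`v = []`, `s' = s` and `1` otherwise; for `childS k u'` take the element of `u'` moved to the child
`k`. -/
theorem Gm_rot (hN : ∀ l, 0 < N l) (u : Sg (mS N i n) (seqF D i n)) (c : Circle) :
    ∃ g : GG, (∀ x, Gm N D i n (rotB u c x) = act g (Gm N D i n x)) ∧
      ∀ q : Ix N (i + n), chi N D (i + n) q g = c ^ wtI N D i n u q := by
  induction n with
  | zero => exact u.1.1.1.elim0
  | succ n ih =>
    have hN' : 0 < N (i + n) := hN (i + n)
    rcases sg_cases u with ⟨s, rfl⟩ | ⟨k, u', rfl⟩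
    · refine ⟨fun v s' => match v with
        | [] => if s' = (s : ℕ) then c else 1
        | _ :: _ => 1, ?_, ?_⟩
      · intro x
        funext v
        match v with
        | [] =>
          refine Prod.ext rfl ?_
          funext s'
          change (if h : s' < D (i + n) then (rotB (rootS s) c x).2 (rootS ⟨s', h⟩) else s0) =
            rotS (if s' = (s : ℕ) then c else 1)
              (if h : s' < D (i + n) then x.2 (rootS ⟨s', h⟩) else s0)
          by_cases h : s' < D (i + n)
          · rw [dif_pos h, dif_pos h]
            by_cases h2 : s' = (s : ℕ)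
            · rw [if_pos h2]
              have h3 : (⟨s', h⟩ : Fin (D (i + n))) = s := Fin.ext h2
              rw [h3]
              change Function.update x.2 (rootS s) (rotS c (x.2 (rootS s))) (rootS s) = _
              rw [Function.update_self]
            · rw [if_neg h2, rotS_one]
              change Function.update x.2 (rootS s) (rotS c (x.2 (rootS s))) (rootS ⟨s', h⟩) = _
              refine Function.update_of_ne ?_ _ _
              intro h3
              exact h2 (congrArg Fin.val (rootS_inj h3))
          · rw [dif_neg h, dif_neg h, if_neg (fun h2 : s' = (s : ℕ) => h (h2 ▸ s.2)), rotS_one]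
        | a :: w =>
          have h3 : ∀ z : unitInterval × (ℕ → S3),
              (z.1, fun s' => rotS 1 (z.2 s')) = z := by
            intro z
            refine Prod.ext rfl ?_
            funext s'
            exact rotS_one _
          refine Eq.trans ?_ (h3 _).symm
          change (if h : a < N (i + n) - 1 + 1 then
            Gm N D i n (childB ⟨a, h⟩ (rotB (rootS s) c x)) w else (0, fun _ => s0)) =
            (if h : a < N (i + n) - 1 + 1 then
            Gm N D i n (childB ⟨a, h⟩ x) w else (0, fun _ => s0))
          by_cases h : a < N (i + n) - 1 + 1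
          · rw [dif_pos h, dif_pos h, childB_rotB_root]
          · rw [dif_neg h, dif_neg h]
      · intro q
        rw [wtI_root s q hN']
        change (if (Ix.hd (i := i + n) q : ℕ) < N (i + n) then
          (∏ s' ∈ Finset.range (D (i + n)), (if s' = (s : ℕ) then c else 1)) ^
              (Ix.hd (i := i + n) q : ℕ) *
            chi N D (i + n) (Ix.tl (i := i + n) q) (fun _ _ => 1) else 1) = _
        rw [chi_one, mul_one, Finset.prod_ite_eq' (Finset.range (D (i + n))) (s : ℕ) (fun _ => c),
          if_pos (Finset.mem_range.2 s.2)]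
        by_cases h : (Ix.hd (i := i + n) q : ℕ) < N (i + n)
        · rw [if_pos h, if_pos h]
        · rw [if_neg h, if_neg h, pow_zero]
    · obtain ⟨g', hg1, hg2⟩ := ih u'
      refine ⟨fun v s' => match v with
        | [] => 1
        | a :: w => if a = (k : ℕ) then g' w s' else 1, ?_, ?_⟩
      · intro x
        funext v
        match v with
        | [] =>
          refine Prod.ext rfl ?_
          funext s'
          change (if h : s' < D (i + n) then (rotB (childS k u') c x).2 (rootS ⟨s', h⟩) else s0) =
            rotS 1 (if h : s' < D (i + n) then x.2 (rootS ⟨s', h⟩) else s0)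
          rw [rotS_one]
          by_cases h : s' < D (i + n)
          · rw [dif_pos h, dif_pos h]
            change Function.update x.2 (childS k u') (rotS c (x.2 (childS k u')))
              (rootS ⟨s', h⟩) = _
            exact Function.update_of_ne (rootS_ne_childS _ _ _) _ _
          · rw [dif_neg h, dif_neg h]
        | a :: w =>
          change (if h : a < N (i + n) - 1 + 1 then
              Gm N D i n (childB ⟨a, h⟩ (rotB (childS k u') c x)) w else (0, fun _ => s0)) =
            ((if h : a < N (i + n) - 1 + 1 then
              Gm N D i n (childB ⟨a, h⟩ x) w else (0, fun _ => s0)).1,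
            fun s' => rotS (if a = (k : ℕ) then g' w s' else 1)
              ((if h : a < N (i + n) - 1 + 1 then
                Gm N D i n (childB ⟨a, h⟩ x) w else (0, fun _ => s0)).2 s'))
          by_cases h2 : a = (k : ℕ)
          · have h : a < N (i + n) - 1 + 1 := h2 ▸ k.2
            have h3 : (⟨a, h⟩ : Fin (N (i + n) - 1 + 1)) = k := Fin.ext h2
            rw [dif_pos h, dif_pos h, h3, childB_rotB_self, hg1]
            refine Prod.ext rfl ?_
            funext s'
            change rotS (g' w s') ((Gm N D i n (childB k x) w).2 s') =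
              rotS (if a = (k : ℕ) then g' w s' else 1) ((Gm N D i n (childB k x) w).2 s')
            rw [if_pos h2]
          · have h5 : (fun s' => rotS (if a = (k : ℕ) then g' w s' else 1)
                ((if h : a < N (i + n) - 1 + 1 then
                  Gm N D i n (childB ⟨a, h⟩ x) w else (0, fun _ => s0)).2 s')) =
                (if h : a < N (i + n) - 1 + 1 then
                  Gm N D i n (childB ⟨a, h⟩ x) w else (0, fun _ => s0)).2 := by
              funext s'
              rw [if_neg h2, rotS_one]
            rw [h5]
            by_cases h : a < N (i + n) - 1 + 1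
            · rw [dif_pos h, dif_pos h, childB_rotB_ne]
              intro h3
              exact h2 (congrArg Fin.val h3)
            · rw [dif_neg h, dif_neg h]
      · intro q
        rw [wtI_child k u' q]
        change (if (Ix.hd (i := i + n) q : ℕ) < N (i + n) then
          (∏ _s ∈ Finset.range (D (i + n)), (1 : Circle)) ^
              (Ix.hd (i := i + n) q : ℕ) *
            chi N D (i + n) (Ix.tl (i := i + n) q)
              (fun w s' => if (Ix.hd (i := i + n) q : ℕ) = (k : ℕ) then g' w s' else 1)
          else 1) = _
        rw [Finset.prod_const_one, one_pow, one_mul]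
        by_cases h2 : (Ix.hd (i := i + n) q : ℕ) = (k : ℕ)
        · have h : (Ix.hd (i := i + n) q : ℕ) < N (i + n) := by
            have := k.2
            omega
          rw [if_pos h, if_pos h2, ← hg2]
          congr 1
          funext w s'
          rw [if_pos h2]
        · rw [if_neg h2, pow_zero]
          by_cases h : (Ix.hd (i := i + n) q : ℕ) < N (i + n)
          · rw [if_pos h]
            refine Eq.trans ?_ (chi_one (D := D) (i + n) (Ix.tl (i := i + n) q))
            congr 1
            funext w s'
            rw [if_neg h2]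
          · rw [if_neg h]

end Pool.Agent.MP_d8b6c2_an.F
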