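import Mathlib
import Pool.Agent.Lib.MP_d8b6c2_an.F.Frame
import Pool.Agent.Lib.MP_d8b6c2_an.F.Eig
import Pool.Agent.Lib.MP_d8b6c2_an.F.Rot
import Pool.Agent.Lib.MP_d8b6c2_an.F.Mean
import Pool.Agent.Lib.MP_d8b6c2_an.F.Num

/-! # The field -/

namespace Pool.Agent.MP_d8b6c2_an.F

open Finset
open Pool.Agent.MP_d8b6c2_an.C
open scoped Matrix.Norms.L2Operator

variable {N D M cap : ℕ → ℕ} {pt : ℕ → C.XX} {i n k k' : ℕ}

theorem field1_hN (h : Nums N D M cap) (l : ℕ) : 0 < N l := by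
  rw [h.hN l]
  positivity

/-- the value at constant trees -/
theorem field1_gam (h : Nums N D M cap) (i : ℕ) (t : unitInterval) :
    |(nn N i : ℝ) * HH N pt i (gam t) - nn N i * (1 - 3 / 4 * (t : ℝ))| ≤ 1 / 100 * nn N i := by
  have h1 := HH_gam (pt := pt) (field1_hN h) i t
  have h2 := nn_le h 0 i
  rw [Nat.zero_add] at h2
  have h3 : (nn N 0 : ℝ) = 1 := by simp [nn]
  rw [h3] at h2
  have h4 : (0 : ℝ) ≤ nn N i := Nat.cast_nonneg _
  refine h1.trans ?_
  linarith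

/-- the rank of the certified subspaces -/
theorem rank_ge (h : Nums N D M cap) (hi : 1 ≤ i) (b : EqA N D (Fin k) i) {e : ℝ}
    (hb : GoodAt N D pt b e (1 / 100)) :
    nn N i - nn N i / 10 ≤ nGe e (b.1 (gam 0)) := by
  have h1 := hb.lower (gam 0)
  have h2 := field1_gam (pt := pt) h i 0
  have h3 : (((0 : unitInterval)) : ℝ) = 0 := rfl
  rw [h3] at h2
  have h4 := (abs_le.1 h2).1
  have h5 : (401 : ℝ) ≤ nn N i := by exact_mod_cast nn_ge h hi
  have h6 : (nn N i : ℝ) < 10 * ((nn N i / 10 : ℕ) : ℝ) + 10 := by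
    have : nn N i < 10 * (nn N i / 10) + 10 := by omega
    exact_mod_cast this
  have h7 : ((nn N i - nn N i / 10 : ℕ) : ℝ) = nn N i - ((nn N i / 10 : ℕ) : ℝ) :=
    Nat.cast_sub (Nat.div_le_self _ _)
  have h8 : ((nn N i - nn N i / 10 : ℕ) : ℝ) ≤ (nGe e (b.1 (gam 0)) : ℝ) := by
    rw [h7]
    linarith
  exact_mod_cast h8

theorem field1_eta (h : Nums N D M cap) (hi : 1 ≤ i) (n : ℕ) :
    (nn N (i + n) : ℝ) * (1 / (1000 * nn N i)) ≤ 101 / 100000 * RR N i n := by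
  have h1 := nn_le h i n
  have h5 : (401 : ℝ) ≤ nn N i := by exact_mod_cast nn_ge h hi
  have h6 : (0 : ℝ) < 1000 * nn N i := by linarith
  rw [mul_one_div, div_le_iff₀ h6]
  linarith

/-- the window -/
theorem win_le (h : Nums N D M cap) (hi : 1 ≤ i) (hn : 1 ≤ n) (b' : EqA N D (Fin k') (i + n))
    {e2 : ℝ} (he2 : 0 < e2) (hb' : GoodAt N D pt b' e2 (1 / (1000 * nn N i))) (x : C.XX) :
    nIcc (e2 / 8) (e2 / 2) (b'.1 x) ≤ RR N i n / 200 := by
  have h1 := hb'.lower x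
  have h2 := hb'.upper x
  have h3 : nIcc (e2 / 8) (e2 / 2) (b'.1 x) + nGe e2 (b'.1 x) ≤ nGe (e2 / 8) (b'.1 x) :=
    nIcc_add_nGe_le (by linarith) (by linarith)
  have h4 : (nIcc (e2 / 8) (e2 / 2) (b'.1 x) : ℝ) + nGe e2 (b'.1 x) ≤
      nGe (e2 / 8) (b'.1 x) := by exact_mod_cast h3
  have h5 := field1_eta h hi n
  have h6 : (800 : ℝ) ≤ RR N i n := by exact_mod_cast RR_ge h hi hn
  have h7 : (RR N i n : ℝ) < 200 * ((RR N i n / 200 : ℕ) : ℝ) + 200 := by
    have : RR N i n < 200 * (RR N i n / 200) + 200 := by omega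
    exact_mod_cast this
  have h8 : (nIcc (e2 / 8) (e2 / 2) (b'.1 x) : ℝ) < ((RR N i n / 200 : ℕ) : ℝ) + 1 := by
    rw [mul_sub] at h1
    rw [mul_add] at h2
    linarith
  have h9 : nIcc (e2 / 8) (e2 / 2) (b'.1 x) < RR N i n / 200 + 1 := by exact_mod_cast h8
  omega

theorem le_kappa (h : Nums N D M cap) (hi : 1 ≤ i) (b' : EqA N D (Fin k') (i + n))
    {e2 : ℝ} (he2 : 0 < e2) (hb' : GoodAt N D pt b' e2 (1 / (1000 * nn N i))) (x : C.XX) :
    nGe (e2 / 8) (b'.1 x) ≤ 2 * nn N (i + n) := by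
  have h1 := hb'.upper x
  have h2 := (HH_mem (N := N) (pt := pt) (i + n) x).2
  have h5 : (401 : ℝ) ≤ nn N i := by exact_mod_cast nn_ge h hi
  have h6 : (1 : ℝ) / (1000 * nn N i) ≤ 1 := by
    rw [div_le_one (by linarith)]
    linarith
  have h7 : (nGe (e2 / 8) (b'.1 x) : ℝ) ≤ nn N (i + n) * 2 :=
    h1.trans (mul_le_mul_of_nonneg_left (by linarith) (Nat.cast_nonneg _))
  have h8 : (nGe (e2 / 8) (b'.1 x) : ℝ) ≤ ((2 * nn N (i + n) : ℕ) : ℝ) := by
    push_cast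
    linarith
  exact_mod_cast h8

/-- few leaves with `x p ≠ 0`: the rank is small. `HH_Gm_le`, `HH_gam`: the leaves with `x p = 0`
contribute at most `.26`, the others at most `1`; `nn_le`. -/
theorem rank_small (h : Nums N D M cap) (hi : 1 ≤ i) (hn : 1 ≤ n)
    (b' : EqA N D (Fin k') (i + n)) {e2 : ℝ} (he2 : 0 < e2)
    (hb' : GoodAt N D pt b' e2 (1 / (1000 * nn N i))) (x : Bs (mS N i n) (seqF D i n))
    (hx : (univ.filter fun p : Pth (mS N i n) => (x.1 p : ℝ) ≠ 0).card ≤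
      RR N i n / 20 + RR N i n / 200) :
    nGe (e2 / 8) (b'.1 (Gm N D i n x)) <
      (nn N i - nn N i / 10) * (Fintype.card (Pth (mS N i n)) - RR N i n / 20) := by
  classical
  have h1 := hb'.upper (Gm N D i n x)
  have h2 := HH_Gm_le (pt := pt) (field1_hN h) x
  have h3 := field1_eta h hi n
  have h5 : (401 : ℝ) ≤ nn N i := by exact_mod_cast nn_ge h hi
  have h6 : (800 : ℝ) ≤ RR N i n := by exact_mod_cast RR_ge h hi hn
  have h7 := nn_le h i n
  have hcard : Fintype.card (Pth (mS N i n)) = RR N i n := card_Pth (field1_hN h)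
  -- each leaf
  have h8 : ∀ p : Pth (mS N i n),
      (nn N i : ℝ) * HH N pt i (gam (unitInterval.symm (x.1 p))) ≤
        26 / 100 * nn N i + if (x.1 p : ℝ) ≠ 0 then 74 / 100 * (nn N i : ℝ) else 0 := by
    intro p
    by_cases hp : (x.1 p : ℝ) ≠ 0
    · rw [if_pos hp]
      have h9 := (HH_mem (N := N) (pt := pt) i (gam (unitInterval.symm (x.1 p)))).2
      have h10 := mul_le_mul_of_nonneg_left h9 (Nat.cast_nonneg (α := ℝ) (nn N i))
      linarith
    · rw [if_neg hp]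
      have h9 := (abs_le.1 (field1_gam (pt := pt) h i (unitInterval.symm (x.1 p)))).2
      have h10 : ((unitInterval.symm (x.1 p) : unitInterval) : ℝ) = 1 := by
        rw [unitInterval.coe_symm_eq]
        rw [not_not] at hp
        rw [hp, sub_zero]
      rw [h10] at h9
      linarith
  have h9 : (nn N i : ℝ) * ∑ p, HH N pt i (gam (unitInterval.symm (x.1 p))) ≤
      26 / 100 * nn N i * RR N i n + 74 / 100 * (nn N i : ℝ) *
        ((RR N i n / 20 + RR N i n / 200 : ℕ) : ℝ) := by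
    rw [Finset.mul_sum]
    refine (Finset.sum_le_sum fun p _ => h8 p).trans ?_
    rw [Finset.sum_add_distrib, Finset.sum_const, Finset.card_univ, hcard, ← Finset.sum_filter,
      Finset.sum_const, nsmul_eq_mul, nsmul_eq_mul]
    have h10 : (((univ.filter fun p : Pth (mS N i n) => (x.1 p : ℝ) ≠ 0).card : ℕ) : ℝ) ≤
        ((RR N i n / 20 + RR N i n / 200 : ℕ) : ℝ) := by exact_mod_cast hx
    have h11 : (0 : ℝ) ≤ 74 / 100 * (nn N i : ℝ) := by linarith
    have h12 := mul_le_mul_of_nonneg_left h10 h11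
    linarith
  have h10 : ((RR N i n / 20 + RR N i n / 200 : ℕ) : ℝ) ≤ 55 / 1000 * RR N i n := by
    have ha : ((RR N i n / 20 : ℕ) : ℝ) ≤ (RR N i n : ℝ) / 20 := by
      exact_mod_cast Nat.cast_div_le (α := ℝ) (m := RR N i n) (n := 20)
    have hb : ((RR N i n / 200 : ℕ) : ℝ) ≤ (RR N i n : ℝ) / 200 := by
      exact_mod_cast Nat.cast_div_le (α := ℝ) (m := RR N i n) (n := 200)
    push_cast
    linarith
  set P : ℝ := (nn N i : ℝ) * RR N i n with hP
  have h11 : 74 / 100 * (nn N i : ℝ) * ((RR N i n / 20 + RR N i n / 200 : ℕ) : ℝ) ≤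
      74 / 100 * (55 / 1000) * P := by
    have h12 := mul_le_mul_of_nonneg_left h10 (show (0 : ℝ) ≤ 74 / 100 * (nn N i : ℝ) by linarith)
    rw [hP]
    linarith
  have h12 : (RR N i n : ℝ) * 401 ≤ P := by
    rw [hP]
    nlinarith
  have h13 : (nGe (e2 / 8) (b'.1 (Gm N D i n x)) : ℝ) ≤ 35 / 100 * P := by
    rw [mul_add] at h1
    have h14 : 26 / 100 * (nn N i : ℝ) * RR N i n = 26 / 100 * P := by rw [hP]; ring
    rw [h14] at h9
    linarith
  have h15 : 90 / 100 * (nn N i : ℝ) ≤ ((nn N i - nn N i / 10 : ℕ) : ℝ) := by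
    have ha : ((nn N i / 10 : ℕ) : ℝ) ≤ (nn N i : ℝ) / 10 := by
      exact_mod_cast Nat.cast_div_le (α := ℝ) (m := nn N i) (n := 10)
    rw [Nat.cast_sub (Nat.div_le_self _ _)]
    linarith
  have h16 : 95 / 100 * (RR N i n : ℝ) ≤ ((RR N i n - RR N i n / 20 : ℕ) : ℝ) := by
    have ha : ((RR N i n / 20 : ℕ) : ℝ) ≤ (RR N i n : ℝ) / 20 := by
      exact_mod_cast Nat.cast_div_le (α := ℝ) (m := RR N i n) (n := 20)
    rw [Nat.cast_sub (Nat.div_le_self _ _)]
    linarith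
  have h17 : 90 / 100 * (nn N i : ℝ) * (95 / 100 * (RR N i n : ℝ)) ≤
      ((nn N i - nn N i / 10 : ℕ) : ℝ) * ((RR N i n - RR N i n / 20 : ℕ) : ℝ) :=
    mul_le_mul h15 h16 (by linarith) (Nat.cast_nonneg _)
  rw [hcard]
  have h18 : (nGe (e2 / 8) (b'.1 (Gm N D i n x)) : ℝ) <
      (((nn N i - nn N i / 10) * (RR N i n - RR N i n / 20) : ℕ) : ℝ) := by
    rw [Nat.cast_mul]
    have h19 : 90 / 100 * (nn N i : ℝ) * (95 / 100 * (RR N i n : ℝ)) = 855 / 1000 * P := by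
      rw [hP]; ring
    have h20 : 0 < P := by linarith
    linarith
  exact_mod_cast h18

end Pool.Agent.MP_d8b6c2_an.F
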