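import Mathlib
import Pool.Agent.Lib.MP_d8b6c2_an.F.Frame
import Pool.Agent.Lib.MP_d8b6c2_an.F.Eig
import Pool.Agent.Lib.MP_d8b6c2_an.F.Rot
import Pool.Agent.Lib.MP_d8b6c2_an.F.Mean
import Pool.Agent.Lib.MP_d8b6c2_an.F.Num
import Pool.Agent.Lib.MP_d8b6c2_an.F.Field1

/-! # The field -/

namespace Pool.Agent.MP_d8b6c2_an.F

open Finset
open Pool.Agent.MP_d8b6c2_an.C
open scoped Matrix.Norms.L2Operator

variable {N D M cap : ℕ → ℕ} {pt : ℕ → C.XX} {i n k k' : ℕ}

private theorem field_herm (hk : k ≤ k') (b : EqA N D (Fin k) i)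
    (hb : ∀ x, (b.1 x).IsHermitian) (y : C.XX) :
    ((pad hk (i + n) (phin N D pt (Fin k) i n b)).1 y).IsHermitian := by
  have h1 : star b = b := by
    refine EqA.ext' fun x p q => ?_
    have h2 : (b.1 x).conjTranspose = b.1 x := hb x
    exact congrFun (congrFun h2 p) q
  have h2 : star (pad hk (i + n) (phin N D pt (Fin k) i n b)) =
      pad hk (i + n) (phin N D pt (Fin k) i n b) := by
    rw [← map_star, ← map_star, h1]
  have h3 : (star (pad hk (i + n) (phin N D pt (Fin k) i n b))).1 y =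
      ((pad hk (i + n) (phin N D pt (Fin k) i n b)).1 y).conjTranspose := rfl
  rw [Matrix.IsHermitian, ← h3, h2]

private theorem field_cert (hN : ∀ l, 0 < N l) (hk : k ≤ k') (b : EqA N D (Fin k) i)
    (hb : ∀ x, (b.1 x).IsHermitian) {e e2 : ℝ} (he : 0 < e) (he2' : e2 ≤ e / 16)
    (b' : EqA N D (Fin k') (i + n)) (x : Bs (mS N i n) (seqF D i n))
    (hb' : (b'.1 (Gm N D i n x)).IsHermitian)
    (hclose : ‖b'.1 (Gm N D i n x) -
      (pad hk (i + n) (phin N D pt (Fin k) i n b)).1 (Gm N D i n x)‖ ≤ e / 16)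
    {r0 : ℕ} {E : Matrix (Fin k × Ix N i) (Fin r0) ℂ} {lam : Fin r0 → ℝ}
    (hlam : ∀ j, e ≤ lam j)
    (hBE : b.1 (gam 0) * E = E * Matrix.diagonal (fun j => (lam j : ℂ)))
    (ξ : Pth (mS N i n) → Fin r0 → ℂ) (hξ : ∀ p, (x.1 p : ℝ) ≠ 1 → ξ p = 0) :
    16 * nsq ((1 - sproj (e2 / 2) (b'.1 (Gm N D i n x))).mulVec
      (∑ p, (eP N i n k' E p).mulVec (ξ p))) ≤
      nsq (∑ p, (eP N i n k' E p).mulVec (ξ p)) := by
  classical
  let F : Matrix (Fin k' × Ix N (i + n))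
      ({p : Pth (mS N i n) // (x.1 p : ℝ) = 1} × Fin r0) ℂ :=
    Matrix.of fun α l => eP N i n k' E l.1.1 α l.2
  have hF : ∑ p, (eP N i n k' E p).mulVec (ξ p) =
      F.mulVec (fun l : {p : Pth (mS N i n) // (x.1 p : ℝ) = 1} × Fin r0 => ξ l.1.1 l.2) := by
    funext α
    rw [Finset.sum_apply]
    have h1 : ∀ p : {p : Pth (mS N i n) // ¬ (x.1 p : ℝ) = 1},
        (eP N i n k' E p.1).mulVec (ξ p.1) α = 0 := by
      intro p
      rw [hξ p.1 p.2, Matrix.mulVec_zero]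
      rfl
    rw [← Fintype.sum_subtype_add_sum_subtype (fun p : Pth (mS N i n) => (x.1 p : ℝ) = 1)
      (fun p => (eP N i n k' E p).mulVec (ξ p) α), Finset.sum_eq_zero (fun p _ => h1 p), add_zero]
    exact (Fintype.sum_prod_type
      (fun l : {p : Pth (mS N i n) // (x.1 p : ℝ) = 1} × Fin r0 =>
        eP N i n k' E l.1.1 α l.2 * ξ l.1.1 l.2)).symm
  have hmat : (pad hk (i + n) (phin N D pt (Fin k) i n b)).1 (Gm N D i n x) * F =
      F * Matrix.diagonal
        (fun l : {p : Pth (mS N i n) // (x.1 p : ℝ) = 1} × Fin r0 => ((lam l.2 : ℝ) : ℂ)) := by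
    ext α l
    have h1 := padF_mul_eP (pt := pt) hN hk b x l.1.1 l.1.2 E
    rw [hBE, eP_mul_diagonal] at h1
    have h2 := congrFun (congrFun h1 α) l.2
    rw [Matrix.mul_diagonal] at h2
    rw [Matrix.mul_diagonal]
    exact h2
  rw [hF]
  exact cert_of_close hb' (field_herm hk b hb _) he (by linarith) hclose hmat
    (fun l => hlam l.2) _

/-- `wt u (κ, q) = wtI u q`, `e p = eP E p` with `E` from `exists_eigframe`, `b x = b'(Gm x)` -/
theorem exists_cfield (h : Nums N D M cap) (hi : 1 ≤ i) (b : EqA N D (Fin k) i) (e : ℝ)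
    (he : 0 < e) (hb : GoodAt N D pt b e (1 / 100)) (hn : 1 ≤ n) (hk : k ≤ k')
    (b' : EqA N D (Fin k') (i + n)) (e2 : ℝ) (he2 : 0 < e2) (he2' : e2 ≤ e / 16)
    (hb' : GoodAt N D pt b' e2 (1 / (1000 * nn N i)))
    (hclose : ∀ x, ‖b'.1 x - (pad hk (i + n) (phin N D pt (Fin k) i n b)).1 x‖ ≤ e / 16) :
    Nonempty (CField (mS N i n) (seqF D i n) (Fin k' × Ix N (i + n)) (2 * nn N (i + n))
      (nn N i - nn N i / 10) (RR N i n / 200) (RR N i n / 20) (e2 / 8) (e2 / 2)) := by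
  have hN : ∀ l, 0 < N l := fun l => by rw [h.hN l]; positivity
  obtain ⟨E, lam, hE, hlam, hBE⟩ := exists_eigframe (hb.pos (gam 0)).1 e
    (nn N i - nn N i / 10) (rank_ge h hi b hb)
  refine ⟨{
    wt := fun u α => wtI N D i n u α.2
    e := fun p => eP N i n k' E p
    b := fun x => b'.1 (Gm N D i n x)
    δ_pos := by positivity
    δ_lt := by linarith
    e_orth := fun p => eP_orth hk hE p
    e_orth' := fun p p' hp => eP_orth' hp
    e_wt := ?_
    b_cont := b'.1.continuous.comp Gm_continuous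
    b_herm := fun x => (hb'.pos _).1
    b_eqv := ?_
    win := fun x => win_le h hi hn b' he2 hb' _
    le := fun x => le_kappa h hi b' he2 hb' _
    hR := fun x hx => rank_small h hi hn b' he2 hb' x hx
    cert := fun x ξ hξ => field_cert hN hk b (fun y => (hb.pos y).1) he he2' b' x
      (hb'.pos _).1 (hclose _) hlam hBE ξ hξ }⟩
  · intro p α j u hne
    obtain ⟨r, hr⟩ := eP_support hne
    rw [hr]
    exact wtI_emb u p r
  · intro x u c α β
    obtain ⟨g, hg, hchi⟩ := Gm_rot (D := D) hN u c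
    rw [hg x, b'.2 g (Gm N D i n x) α β, hchi, hchi, Circle.coe_pow, Circle.coe_pow]

end Pool.Agent.MP_d8b6c2_an.F
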